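import Pool.Agent.Lib.MP_d610d0_nt.CH.S.Stm

set_option autoImplicit false

/-!
Explicit supersolution of the linear sieve equations: step functions on the grid of width `1/50`,
given by tables below `6` and by `0.1024 / 2 ^ ⌊x⌋` from `6` on.
-/

namespace Pool.Agent.CH.S

open Finset

def cs_ss_tu : List ℕ := [
  2665292, 2593424, 2524320, 2457823, 2393789, 2332084, 2272583, 2215169, 2159735, 2106180, 2054410, 2004338,
  1955881, 1908962, 1863510, 1819456, 1776737, 1735293, 1695068, 1656009, 1618066, 1581192, 1545342, 1510474,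
  1476549, 1443528, 1411377, 1380060, 1349547, 1319806, 1290808, 1262526, 1234935, 1208008, 1181722, 1156055,
  1130984, 1106490, 1082553, 1059153, 1036274, 1013897, 992007, 970588, 949624, 929102, 909007, 889326,
  870047, 851158, 832646, 814501, 796712, 779268, 762160, 745378, 728912, 712754, 696895, 681327,
  666042, 651033, 636292, 621811, 607585, 593606, 579868, 566365, 553090, 540039, 527205, 514584,
  502169, 489957, 477941, 466117, 454481, 443029, 431755, 420656, 409728, 398967, 388369, 377930,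
  367647, 357516, 347534, 337698, 328005, 318451, 309033, 299749, 290596, 281571, 272671, 263894,
  255237, 246698, 238275, 229964, 215660, 207001, 198702, 190747, 183120, 175806, 168792, 162065,
  155610, 149417, 143474, 137770, 132295, 127040, 121994, 117148, 112496, 108028, 103736, 99614,
  95654, 91851, 88196, 84685, 81311, 78070, 74955, 71962, 69086, 66321, 63665, 61112,
  58659, 56301, 54035, 51857, 49764, 47753, 45820, 43962, 42177, 40462, 38814, 37230,
  35708, 34246, 32842, 31493, 30196, 28952, 27756, 26608, 25505, 24446, 23430, 22454,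
  21517, 20618, 19755, 18927, 18132, 17370, 16639, 15938, 15266, 14621, 14003, 13410,
  12843, 12299, 11777, 11278, 10800, 10342, 9904, 9485, 9083, 8699, 8332, 7980,
  7644, 7323, 7016, 6723, 6443, 6175, 5920, 5676, 5443, 5220, 5008, 4806,
  4613, 4429, 4254, 4087, 3928, 3776, 3631, 3494, 3363, 3238, 3119, 3005,
  2897, 2794, 2696, 2602, 2512, 2427, 2345, 2268, 2193, 2122, 2055, 1990,
  1928, 1870, 1813, 1759, 1708, 1659, 1612, 1600, 1600, 1600, 1600, 1600,
  1600, 1600, 1600, 1600, 1600, 1600, 1600, 1600, 1600, 1600, 1600, 1600,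
  1600, 1600, 1600, 1600, 1600, 1600, 1600, 1600, 1600, 1600]

def cs_ss_tl : List ℕ := [
  1086460, 1049181, 1013342, 978873, 945709, 913790, 883058, 853459, 824943, 797461, 770969, 745422,
  720781, 697007, 674063, 651916, 630532, 609881, 589933, 570660, 552035, 534033, 516630, 499803,
  483530, 467790, 452564, 437831, 423575, 409777, 396422, 383493, 370975, 358854, 347116, 335747,
  324735, 314068, 303734, 293722, 284020, 274620, 265510, 256681, 248125, 239832, 231793, 224002,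
  216449, 209128, 202031, 195151, 188482, 182016, 175749, 169673, 163783, 158074, 152540, 147176,
  141976, 136937, 132053, 127319, 122732, 118288, 113981, 109809, 105767, 101852, 98061, 94389,
  90833, 87391, 84059, 80833, 77712, 74693, 71772, 68947, 66215, 63574, 61022, 58555,
  56173, 53872, 51651, 49507, 47438, 45443, 43519, 41665, 39879, 38159, 36504, 34912,
  33380, 31909, 30495, 29139, 27837, 26621, 25459, 24350, 23291, 22279, 21314, 20391,
  19510, 18668, 17864, 17096, 16363, 15662, 14992, 14352, 13740, 13156, 12598, 12064,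
  11554, 11067, 10601, 10156, 9731, 9324, 8936, 8565, 8210, 7871, 7547, 7237,
  6941, 6659, 6388, 6130, 5883, 5647, 5422, 5207, 5001, 4804, 4616, 4437,
  4265, 4101, 3945, 3795, 3652, 3516, 3385, 3261, 3142, 3028, 2919, 2816,
  2716, 2622, 2531, 2445, 2362, 2283, 2208, 2136, 2067, 2002, 1939, 1879,
  1822, 1767, 1714, 1664, 1617, 1600, 1600, 1600, 1600, 1600, 1600, 1600,
  1600, 1600, 1600, 1600, 1600, 1600, 1600, 1600, 1600, 1600, 1600, 1600,
  1600, 1600, 1600, 1600, 1600, 1600, 1600, 1600]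

def cs_ss_tU : List ℕ := [
  108103634, 105438342, 102844918, 100320598, 97862775, 95468986, 93136902, 90864319, 88649150, 86489415, 84383235, 82328825,
  80324487, 78368606, 76459644, 74596134, 72776678, 70999941, 69264648, 67569580, 65913571, 64295505, 62714313, 61168971,
  59658497, 58181948, 56738420, 55327043, 53946983, 52597436, 51277630, 49986822, 48724296, 47489361, 46281353, 45099631,
  43943576, 42812592, 41706102, 40623549, 39564396, 38528122, 37514225, 36522218, 35551630, 34602006, 33672904, 32763897,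
  31874571, 31004524, 30153366, 29320720, 28506219, 27709507, 26930239, 26168079, 25422701, 24693789, 23981035, 23284140,
  22602813, 21936771, 21285738, 20649446, 20027635, 19420050, 18826444, 18246576, 17680211, 17127121, 16587082, 16059877,
  15545293, 15043124, 14553167, 14075226, 13609109, 13154628, 12711599, 12279844, 11859188, 11449460, 11050493, 10662124,
  10284194, 9916547, 9559031, 9211497, 8873799, 8545794, 8227343, 7918310, 7618561, 7327965, 7046394, 6773723,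
  6509829, 6254592, 6007894, 5769619, 5539655, 5323995, 5116994, 4918292, 4727545, 4544425, 4368619, 4199827,
  4037762, 3882152, 3732735, 3589261, 3451491, 3319196, 3192156, 3070162, 2953014, 2840518, 2732490, 2628754,
  2529140, 2433486, 2341635, 2253439, 2168754, 2087443, 2009373, 1934418, 1862456, 1793370, 1727049, 1663384,
  1602272, 1543613, 1487312, 1433277, 1381420, 1331656, 1283903, 1238083, 1194121, 1151944, 1111482, 1072668,
  1035438, 999730, 965484, 932642, 901149, 870953, 842001, 814245, 787637, 762132, 737686, 714256,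
  691802, 670285, 649667, 629912, 610985, 592853, 575483, 558844, 542906, 527640, 513019, 499016,
  485606, 472763, 460464, 448687, 437409, 426609, 416267, 406363, 396878, 387795, 379096, 370764,
  362784, 355140, 347817, 340801, 334078, 327635, 321460, 315540, 309864, 304421, 299201, 294193,
  289387, 284774, 280345, 276091, 272004, 268076, 264300, 260669, 257175, 253812, 250574, 247455,
  244450, 241553, 238759, 236063, 233461, 230949, 228522, 226177, 223909, 221716, 219594, 217539,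
  215549, 213621, 211751, 209938, 208179, 206471, 204812, 203200, 201600, 200000, 198400, 196800,
  195200, 193600, 192000, 190400, 188800, 187200, 185600, 184000, 182400, 180800, 179200, 177600,
  176000, 174400, 172800, 171200, 169600, 168000, 166400, 164800, 163200, 161600]

def cs_ss_tL : List ℕ := [
  32187464, 31101004, 30051823, 29038481, 28059608, 27113899, 26200109, 25317051, 24463592, 23638649, 22841188, 22070219,
  21324797, 20604016, 19907009, 19232946, 18581030, 17950498, 17340617, 16750684, 16180024, 15627989, 15093956, 14577326,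
  14077523, 13593993, 13126203, 12673639, 12235808, 11812233, 11402456, 11006034, 10622541, 10251566, 9892712, 9545596,
  9209849, 8885114, 8571046, 8267312, 7973590, 7689570, 7414950, 7149440, 6892759, 6644634, 6404802, 6173009,
  5949007, 5732558, 5523430, 5321399, 5126248, 4937766, 4755750, 4580001, 4410328, 4246545, 4088471, 3935931,
  3788755, 3646779, 3509842, 3377789, 3250470, 3127738, 3009450, 2895469, 2785660, 2679893, 2578041, 2479980,
  2385591, 2294758, 2207367, 2123308, 2042475, 1964763, 1890070, 1818298, 1749351, 1683136, 1619562, 1558540,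
  1499985, 1443812, 1389940, 1338289, 1288782, 1241344, 1195901, 1152382, 1110717, 1070838, 1032679, 996175,
  961263, 927883, 895974, 865479, 836340, 808503, 781882, 756423, 732073, 708782, 686503, 665189,
  644798, 625288, 606620, 588756, 571660, 555297, 539635, 524643, 510291, 496551, 483395, 470797,
  458733, 447179, 436112, 425511, 415355, 405624, 396300, 387364, 378799, 370589, 362718, 355171,
  347934, 340993, 334334, 327946, 321816, 315933, 310286, 304864, 299657, 294656, 289852, 285236,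
  280799, 276534, 272433, 268488, 264693, 261041, 257525, 254140, 250879, 247737, 244709, 241790,
  238974, 236258, 233636, 231105, 228660, 226298, 224015, 221807, 219671, 217604, 215602, 213663,
  211784, 209962, 208195, 206481, 204817, 203200, 201600, 200000, 198400, 196800, 195200, 193600,
  192000, 190400, 188800, 187200, 185600, 184000, 182400, 180800, 179200, 177600, 176000, 174400,
  172800, 171200, 169600, 168000, 166400, 164800, 163200, 161600]

/-- tail value `0.1024 / 2 ^ (i / 50)` -/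
noncomputable def cs_ss_t (i : ℕ) : ℝ := 0.1024 / 2 ^ (i / 50)

/-- tail sum -/
noncomputable def cs_ss_T (i : ℕ) : ℝ := cs_ss_t i * (2 - ((i % 50 : ℕ) : ℝ) / 50)

noncomputable def cs_ss_u (i : ℕ) : ℝ :=
  if i < 300 then ((cs_ss_tu.getD (i - 50) 0 : ℕ) : ℝ) / 10 ^ 6 else cs_ss_t i

noncomputable def cs_ss_l (i : ℕ) : ℝ :=
  if i < 300 then ((cs_ss_tl.getD (i - 100) 0 : ℕ) : ℝ) / 10 ^ 6 else cs_ss_t i

noncomputable def cs_ss_U (i : ℕ) : ℝ :=
  if i < 300 then ((cs_ss_tU.getD (i - 50) 0 : ℕ) : ℝ) / (50 * 10 ^ 6) else cs_ss_T i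

noncomputable def cs_ss_L (i : ℕ) : ℝ :=
  if i < 300 then ((cs_ss_tL.getD (i - 100) 0 : ℕ) : ℝ) / (50 * 10 ^ 6) else cs_ss_T i

lemma cs_ss_t_pos (i : ℕ) : 0 < cs_ss_t i := by unfold cs_ss_t; positivity

lemma cs_ss_t_300 (i : ℕ) (h1 : 300 ≤ i) (h2 : i < 350) : cs_ss_t i = 1600 / 10 ^ 6 := by
  unfold cs_ss_t
  have : i / 50 = 6 := by omega
  rw [this]; norm_num

lemma cs_ss_t_anti (i : ℕ) : cs_ss_t (i + 1) ≤ cs_ss_t i := by
  unfold cs_ss_t
  apply div_le_div_of_nonneg_left (by norm_num) (by positivity)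
  exact pow_le_pow_right₀ (by norm_num) (Nat.div_le_div_right (by omega))

lemma cs_ss_T_nn (i : ℕ) : 0 ≤ cs_ss_T i := by
  unfold cs_ss_T
  apply mul_nonneg (cs_ss_t_pos i).le
  have : i % 50 < 50 := Nat.mod_lt _ (by norm_num)
  have : ((i % 50 : ℕ) : ℝ) ≤ 50 := by exact_mod_cast this.le
  linarith

lemma cs_ss_T_step (i : ℕ) : cs_ss_T (i + 1) + cs_ss_t i / 50 ≤ cs_ss_T i := by
  unfold cs_ss_T cs_ss_t
  have hm : i % 50 < 50 := Nat.mod_lt _ (by norm_num)
  by_cases h : i % 50 = 49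
  · have h1 : (i + 1) / 50 = i / 50 + 1 := by omega
    have h2 : (i + 1) % 50 = 0 := by omega
    rw [h1, h2, h, pow_succ]
    have : (0 : ℝ) < 2 ^ (i / 50) := by positivity
    apply le_of_eq
    field_simp
    norm_num
  · have h1 : (i + 1) / 50 = i / 50 := by omega
    have h2 : (i + 1) % 50 = i % 50 + 1 := by omega
    rw [h1, h2]
    have : (0 : ℝ) < 2 ^ (i / 50) := by positivity
    apply le_of_eq
    push_cast
    field_simp
    ring

lemma cs_ss_T_300 : cs_ss_T 300 = 160000 / (50 * 10 ^ 6) := by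
  unfold cs_ss_T
  rw [cs_ss_t_300 300 (by norm_num) (by norm_num)]
  norm_num

lemma cs_ss_T_low (i : ℕ) (h : 350 ≤ i) :
    (1 + 1 / 200) * cs_ss_T (i - 50) ≤ (i : ℝ) / 50 * cs_ss_t i := by
  unfold cs_ss_T cs_ss_t
  obtain ⟨j, rfl⟩ : ∃ j, i = j + 50 := ⟨i - 50, by omega⟩
  have h1 : (j + 50) / 50 = j / 50 + 1 := by omega
  rw [Nat.add_sub_cancel, h1, pow_succ]
  have h2 : (0 : ℝ) < 2 ^ (j / 50) := by positivity
  have h3 : (0 : ℝ) ≤ ((j % 50 : ℕ) : ℝ) / 50 := by positivity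
  have h4 : (350 : ℝ) ≤ ((j + 50 : ℕ) : ℝ) := by exact_mod_cast h
  set q := (2 : ℝ) ^ (j / 50)
  have e1 : (1 + 1 / 200) * (0.1024 / q * (2 - ((j % 50 : ℕ) : ℝ) / 50))
      = 0.1024 / q * ((1 + 1 / 200) * (2 - ((j % 50 : ℕ) : ℝ) / 50)) := by ring
  have e2 : ((j + 50 : ℕ) : ℝ) / 50 * (0.1024 / (q * 2)) = 0.1024 / q * (((j + 50 : ℕ) : ℝ) / 100) := by
    field_simp
    ring
  rw [e1, e2]
  apply mul_le_mul_of_nonneg_left _ (by positivity)
  linarith

/-! finite checks -/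

lemma cs_ss_c1 : ∀ i < 249, cs_ss_tu.getD (i + 1) 0 ≤ cs_ss_tu.getD i 0 := by decide +kernel
lemma cs_ss_c2 : ∀ i < 199, cs_ss_tl.getD (i + 1) 0 ≤ cs_ss_tl.getD i 0 := by decide +kernel
lemma cs_ss_c3 : ∀ i < 250, 1600 ≤ cs_ss_tu.getD i 0 := by decide +kernel
lemma cs_ss_c4 : ∀ i < 200, 1600 ≤ cs_ss_tl.getD i 0 := by decide +kernel
lemma cs_ss_c5 : ∀ i < 249, cs_ss_tU.getD (i + 1) 0 + cs_ss_tu.getD i 0 ≤ cs_ss_tU.getD i 0 := by
  decide +kernel
lemma cs_ss_c6 : ∀ i < 199, cs_ss_tL.getD (i + 1) 0 + cs_ss_tl.getD i 0 ≤ cs_ss_tL.getD i 0 := by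
  decide +kernel
lemma cs_ss_c7 : 160000 + cs_ss_tu.getD 249 0 ≤ cs_ss_tU.getD 249 0 := by decide +kernel
lemma cs_ss_c8 : 160000 + cs_ss_tl.getD 199 0 ≤ cs_ss_tL.getD 199 0 := by decide +kernel
lemma cs_ss_c9 : ∀ i < 200, 201 * cs_ss_tU.getD i 0 ≤ 200 * (i + 100) * cs_ss_tl.getD i 0 := by
  decide +kernel
lemma cs_ss_c10 : ∀ i < 50, 201 * cs_ss_tU.getD (i + 200) 0 ≤ 200 * (i + 300) * 1600 := by
  decide +kernel
lemma cs_ss_c11 : ∀ i < 150, 201 * cs_ss_tL.getD i 0 ≤ 200 * (i + 150) * cs_ss_tu.getD (i + 100) 0 := by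
  decide +kernel
lemma cs_ss_c12 : ∀ i < 50, 201 * cs_ss_tL.getD (i + 150) 0 ≤ 200 * (i + 300) * 1600 := by
  decide +kernel
lemma cs_ss_c13 : ∀ i < 100, 3665292 * 50 ≤ (i + 50) * (10 ^ 6 + cs_ss_tu.getD i 0) := by
  decide +kernel
lemma cs_ss_c14 : 3 * 201 * (10 ^ 6 + cs_ss_tu.getD 100 0) ≤ 200 * 3665292 := by decide +kernel
lemma cs_ss_c15 : cs_ss_tu.getD 83 0 ≤ 379000 := by decide +kernel
lemma cs_ss_c16 : cs_ss_tl.getD 33 0 ≤ 360000 := by decide +kernel

/-! the abstract step function -/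

/-- data of a decreasing step function and upper bounds for its tail sums -/
structure cs_ss_St (i0 : ℕ) (f T : ℕ → ℝ) : Prop where
  anti : ∀ i, i0 ≤ i → f (i + 1) ≤ f i
  pos : ∀ i, i0 ≤ i → 0 < f i
  nn : ∀ i, i0 ≤ i → 0 ≤ T i
  step : ∀ i, i0 ≤ i → T (i + 1) + f i / 50 ≤ T i

noncomputable def cs_ss_F (f : ℕ → ℝ) (x : ℝ) : ℝ := f ⌊50 * x⌋₊

noncomputable def cs_ss_G (f T : ℕ → ℝ) (x : ℝ) : ℝ :=
  T (⌊50 * x⌋₊ + 1) + (((⌊50 * x⌋₊ : ℕ) + 1) / 50 - x) * f ⌊50 * x⌋₊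

lemma cs_ss_St.antile {i0 : ℕ} {f T : ℕ → ℝ} (h : cs_ss_St i0 f T) (i j : ℕ) (hi : i0 ≤ i)
    (hij : i ≤ j) : f j ≤ f i := by
  induction j, hij using Nat.le_induction with
  | base => exact le_rfl
  | succ j hj ih => exact (h.anti j (by omega)).trans ih

lemma cs_ss_St.tele {i0 : ℕ} {f T : ℕ → ℝ} (h : cs_ss_St i0 f T) (i j : ℕ) (hi : i0 ≤ i)
    (hij : i ≤ j) : ((j : ℝ) - i) / 50 * f j ≤ T (i + 1) - T (j + 1) := by
  induction j, hij using Nat.le_induction with
  | base => simp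
  | succ j hj ih =>
    have h1 := h.step (j + 1) (by omega)
    have h2 := h.anti j (by omega)
    have h3 : (0 : ℝ) ≤ (j : ℝ) - i := by
      have : (i : ℝ) ≤ j := by exact_mod_cast hj
      linarith
    have h4 : ((j : ℝ) - i) / 50 * f (j + 1) ≤ ((j : ℝ) - i) / 50 * f j :=
      mul_le_mul_of_nonneg_left h2 (by positivity)
    push_cast
    have e : ((j : ℝ) + 1 - i) / 50 * f (j + 1) = ((j : ℝ) - i) / 50 * f (j + 1) + f (j + 1) / 50 := by
      ring
    rw [e]
    linarith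

lemma cs_ss_fl {x : ℝ} (hx : 0 ≤ x) : ((⌊50 * x⌋₊ : ℕ) : ℝ) ≤ 50 * x ∧
    50 * x < ((⌊50 * x⌋₊ : ℕ) : ℝ) + 1 :=
  ⟨Nat.floor_le (by linarith), Nat.lt_floor_add_one _⟩

lemma cs_ss_le_fl {x : ℝ} {i : ℕ} (hx : (i : ℝ) / 50 ≤ x) : i ≤ ⌊50 * x⌋₊ := by
  apply Nat.le_floor
  linarith

lemma cs_ss_fl_sub {x : ℝ} : ⌊50 * (x - 1)⌋₊ = ⌊50 * x⌋₊ - 50 := by
  have : 50 * (x - 1) = 50 * x - (50 : ℕ) := by push_cast; ring
  rw [this, Nat.floor_sub_natCast]

lemma cs_ss_St.F_anti {i0 : ℕ} {f T : ℕ → ℝ} (h : cs_ss_St i0 f T) (x y : ℝ)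
    (hx : (i0 : ℝ) / 50 ≤ x) (hxy : x ≤ y) : cs_ss_F f y ≤ cs_ss_F f x :=
  h.antile _ _ (cs_ss_le_fl hx) (Nat.floor_le_floor (by linarith))

lemma cs_ss_St.G_int {i0 : ℕ} {f T : ℕ → ℝ} (h : cs_ss_St i0 f T) (x y : ℝ)
    (hx : (i0 : ℝ) / 50 ≤ x) (hxy : x ≤ y) :
    (y - x) * cs_ss_F f y ≤ cs_ss_G f T x - cs_ss_G f T y := by
  have hx0 : 0 ≤ x := le_trans (by positivity) hx
  have hij : ⌊50 * x⌋₊ ≤ ⌊50 * y⌋₊ := Nat.floor_le_floor (by linarith)
  have h1 := h.tele _ _ (cs_ss_le_fl hx) hij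
  have h2 := h.antile _ _ (cs_ss_le_fl hx) hij
  obtain ⟨h3, h4⟩ := cs_ss_fl hx0
  unfold cs_ss_F cs_ss_G
  set i := ⌊50 * x⌋₊
  set j := ⌊50 * y⌋₊
  have h5 : (((i : ℝ) + 1) / 50 - x) * f j ≤ (((i : ℝ) + 1) / 50 - x) * f i :=
    mul_le_mul_of_nonneg_left h2 (by linarith)
  have e : (y - x) * f j = ((j : ℝ) - i) / 50 * f j + (((i : ℝ) + 1) / 50 - x) * f j
      - (((j : ℝ) + 1) / 50 - y) * f j := by ring
  rw [e]
  linarith

lemma cs_ss_St.G_nn {i0 : ℕ} {f T : ℕ → ℝ} (h : cs_ss_St i0 f T) (x : ℝ)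
    (hx : (i0 : ℝ) / 50 ≤ x) : 0 ≤ cs_ss_G f T x := by
  have hx0 : 0 ≤ x := le_trans (by positivity) hx
  obtain ⟨h3, h4⟩ := cs_ss_fl hx0
  unfold cs_ss_G
  have h1 := h.nn (⌊50 * x⌋₊ + 1) (by have := cs_ss_le_fl hx; omega)
  have h2 := h.pos (⌊50 * x⌋₊) (cs_ss_le_fl hx)
  have h5 : 0 ≤ (((⌊50 * x⌋₊ : ℕ) : ℝ) + 1) / 50 - x := by linarith
  have := mul_nonneg h5 h2.le
  linarith

lemma cs_ss_St.G_le {i0 : ℕ} {f T : ℕ → ℝ} (h : cs_ss_St i0 f T) (x : ℝ)
    (hx : (i0 : ℝ) / 50 ≤ x) : cs_ss_G f T x ≤ T ⌊50 * x⌋₊ := by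
  have hx0 : 0 ≤ x := le_trans (by positivity) hx
  obtain ⟨h3, h4⟩ := cs_ss_fl hx0
  unfold cs_ss_G
  have h1 := h.step (⌊50 * x⌋₊) (cs_ss_le_fl hx)
  have h2 := h.pos (⌊50 * x⌋₊) (cs_ss_le_fl hx)
  have h5 : (((⌊50 * x⌋₊ : ℕ) : ℝ) + 1) / 50 - x ≤ 1 / 50 := by linarith
  have := mul_le_mul_of_nonneg_right h5 h2.le
  linarith

lemma cs_ss_Su : cs_ss_St 50 cs_ss_u cs_ss_U := by
  constructor
  · intro i hi
    unfold cs_ss_u
    by_cases h1 : i + 1 < 300
    · rw [if_pos h1, if_pos (by omega)]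
      have h2 := cs_ss_c1 (i - 50) (by omega)
      rw [show i - 50 + 1 = i + 1 - 50 by omega] at h2
      have h3 : ((cs_ss_tu.getD (i + 1 - 50) 0 : ℕ) : ℝ) ≤ ((cs_ss_tu.getD (i - 50) 0 : ℕ) : ℝ) := by
        exact_mod_cast h2
      linarith
    · rw [if_neg h1]
      by_cases h2 : i < 300
      · have : i = 299 := by omega
        subst this
        rw [if_pos h2, cs_ss_t_300 _ (by norm_num) (by norm_num)]
        have h3 := cs_ss_c3 249 (by norm_num)
        have h4 : (1600 : ℝ) ≤ ((cs_ss_tu.getD (299 - 50) 0 : ℕ) : ℝ) := by exact_mod_cast h3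
        linarith
      · rw [if_neg h2]; exact cs_ss_t_anti i
  · intro i hi
    unfold cs_ss_u
    split_ifs with h
    · have h3 := cs_ss_c3 (i - 50) (by omega)
      have h4 : (1600 : ℝ) ≤ ((cs_ss_tu.getD (i - 50) 0 : ℕ) : ℝ) := by exact_mod_cast h3
      linarith
    · exact cs_ss_t_pos i
  · intro i hi
    unfold cs_ss_U
    split_ifs with h
    · positivity
    · exact cs_ss_T_nn i
  · intro i hi
    unfold cs_ss_u cs_ss_U
    by_cases h1 : i + 1 < 300
    · rw [if_pos h1, if_pos (by omega), if_pos (by omega)]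
      have h2 := cs_ss_c5 (i - 50) (by omega)
      rw [show i - 50 + 1 = i + 1 - 50 by omega] at h2
      have h3 : ((cs_ss_tU.getD (i + 1 - 50) 0 : ℕ) : ℝ) + ((cs_ss_tu.getD (i - 50) 0 : ℕ) : ℝ)
          ≤ ((cs_ss_tU.getD (i - 50) 0 : ℕ) : ℝ) := by exact_mod_cast h2
      linarith
    · by_cases h2 : i < 300
      · have : i = 299 := by omega
        subst this
        rw [if_neg h1, if_pos h2, if_pos h2]
        rw [show (299 + 1 : ℕ) = 300 by norm_num, cs_ss_T_300]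
        have h3 := cs_ss_c7
        have h4 : (160000 : ℝ) + ((cs_ss_tu.getD (299 - 50) 0 : ℕ) : ℝ)
            ≤ ((cs_ss_tU.getD (299 - 50) 0 : ℕ) : ℝ) := by exact_mod_cast h3
        linarith
      · rw [if_neg h1, if_neg h2, if_neg h2]; exact cs_ss_T_step i

lemma cs_ss_Sl : cs_ss_St 100 cs_ss_l cs_ss_L := by
  constructor
  · intro i hi
    unfold cs_ss_l
    by_cases h1 : i + 1 < 300
    · rw [if_pos h1, if_pos (by omega)]
      have h2 := cs_ss_c2 (i - 100) (by omega)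
      rw [show i - 100 + 1 = i + 1 - 100 by omega] at h2
      have h3 : ((cs_ss_tl.getD (i + 1 - 100) 0 : ℕ) : ℝ) ≤ ((cs_ss_tl.getD (i - 100) 0 : ℕ) : ℝ) := by
        exact_mod_cast h2
      linarith
    · rw [if_neg h1]
      by_cases h2 : i < 300
      · have : i = 299 := by omega
        subst this
        rw [if_pos h2, cs_ss_t_300 _ (by norm_num) (by norm_num)]
        have h3 := cs_ss_c4 199 (by norm_num)
        have h4 : (1600 : ℝ) ≤ ((cs_ss_tl.getD (299 - 100) 0 : ℕ) : ℝ) := by exact_mod_cast h3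
        linarith
      · rw [if_neg h2]; exact cs_ss_t_anti i
  · intro i hi
    unfold cs_ss_l
    split_ifs with h
    · have h3 := cs_ss_c4 (i - 100) (by omega)
      have h4 : (1600 : ℝ) ≤ ((cs_ss_tl.getD (i - 100) 0 : ℕ) : ℝ) := by exact_mod_cast h3
      linarith
    · exact cs_ss_t_pos i
  · intro i hi
    unfold cs_ss_L
    split_ifs with h
    · positivity
    · exact cs_ss_T_nn i
  · intro i hi
    unfold cs_ss_l cs_ss_L
    by_cases h1 : i + 1 < 300
    · rw [if_pos h1, if_pos (by omega), if_pos (by omega)]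
      have h2 := cs_ss_c6 (i - 100) (by omega)
      rw [show i - 100 + 1 = i + 1 - 100 by omega] at h2
      have h3 : ((cs_ss_tL.getD (i + 1 - 100) 0 : ℕ) : ℝ) + ((cs_ss_tl.getD (i - 100) 0 : ℕ) : ℝ)
          ≤ ((cs_ss_tL.getD (i - 100) 0 : ℕ) : ℝ) := by exact_mod_cast h2
      linarith
    · by_cases h2 : i < 300
      · have : i = 299 := by omega
        subst this
        rw [if_neg h1, if_pos h2, if_pos h2]
        rw [show (299 + 1 : ℕ) = 300 by norm_num, cs_ss_T_300]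
        have h3 := cs_ss_c8
        have h4 : (160000 : ℝ) + ((cs_ss_tl.getD (299 - 100) 0 : ℕ) : ℝ)
            ≤ ((cs_ss_tL.getD (299 - 100) 0 : ℕ) : ℝ) := by exact_mod_cast h3
        linarith
      · rw [if_neg h1, if_neg h2, if_neg h2]; exact cs_ss_T_step i

lemma cs_ss_low (i : ℕ) (hi : 100 ≤ i) :
    (1 + 1 / 200) * cs_ss_U (i - 50) ≤ (i : ℝ) / 50 * cs_ss_l i := by
  unfold cs_ss_U cs_ss_l
  by_cases h1 : i < 300
  · rw [if_pos h1, if_pos (by omega)]
    have h2 := cs_ss_c9 (i - 100) (by omega)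
    rw [show i - 100 + 100 = i by omega] at h2
    rw [show i - 50 - 50 = i - 100 by omega]
    have h3 : 201 * ((cs_ss_tU.getD (i - 100) 0 : ℕ) : ℝ)
        ≤ 200 * (i : ℝ) * ((cs_ss_tl.getD (i - 100) 0 : ℕ) : ℝ) := by exact_mod_cast h2
    have e : (i : ℝ) / 50 * (((cs_ss_tl.getD (i - 100) 0 : ℕ) : ℝ) / 10 ^ 6)
        = (200 * (i : ℝ) * ((cs_ss_tl.getD (i - 100) 0 : ℕ) : ℝ)) / (200 * 50 * 10 ^ 6) := by ring
    rw [e]
    linarith
  · rw [if_neg h1]
    by_cases h2 : i < 350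
    · rw [if_pos (by omega), cs_ss_t_300 i (by omega) h2]
      have h3 := cs_ss_c10 (i - 300) (by omega)
      rw [show i - 300 + 300 = i by omega, show i - 300 + 200 = i - 50 - 50 by omega] at h3
      have h4 : 201 * ((cs_ss_tU.getD (i - 50 - 50) 0 : ℕ) : ℝ) ≤ 200 * (i : ℝ) * 1600 := by
        exact_mod_cast h3
      linarith
    · rw [if_neg (by omega)]
      exact cs_ss_T_low i (by omega)

lemma cs_ss_up (i : ℕ) (hi : 150 ≤ i) :
    (1 + 1 / 200) * cs_ss_L (i - 50) ≤ (i : ℝ) / 50 * cs_ss_u i := by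
  unfold cs_ss_L cs_ss_u
  by_cases h1 : i < 300
  · rw [if_pos h1, if_pos (by omega)]
    have h2 := cs_ss_c11 (i - 150) (by omega)
    rw [show i - 150 + 150 = i by omega, show i - 150 + 100 = i - 50 by omega] at h2
    rw [show i - 50 - 100 = i - 150 by omega]
    have h3 : 201 * ((cs_ss_tL.getD (i - 150) 0 : ℕ) : ℝ)
        ≤ 200 * (i : ℝ) * ((cs_ss_tu.getD (i - 50) 0 : ℕ) : ℝ) := by exact_mod_cast h2
    have e : (i : ℝ) / 50 * (((cs_ss_tu.getD (i - 50) 0 : ℕ) : ℝ) / 10 ^ 6)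
        = (200 * (i : ℝ) * ((cs_ss_tu.getD (i - 50) 0 : ℕ) : ℝ)) / (200 * 50 * 10 ^ 6) := by ring
    rw [e]
    linarith
  · rw [if_neg h1]
    by_cases h2 : i < 350
    · rw [if_pos (by omega), cs_ss_t_300 i (by omega) h2]
      have h3 := cs_ss_c12 (i - 300) (by omega)
      rw [show i - 300 + 300 = i by omega, show i - 300 + 150 = i - 50 - 100 by omega] at h3
      have h4 : 201 * ((cs_ss_tL.getD (i - 50 - 100) 0 : ℕ) : ℝ) ≤ 200 * (i : ℝ) * 1600 := by
        exact_mod_cast h3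
      linarith
    · rw [if_neg (by omega)]
      exact cs_ss_T_low i (by omega)

theorem p_ss : S_ss := by
  refine ⟨cs_ss_F cs_ss_u, cs_ss_F cs_ss_l, cs_ss_G cs_ss_u cs_ss_U, cs_ss_G cs_ss_l cs_ss_L,
    3665292 / 10 ^ 6, ?_, ?_, ?_⟩
  · constructor
    · intro x y hx hxy
      exact cs_ss_Su.F_anti x y (by norm_num; exact hx) hxy
    · intro x y hx hxy
      exact cs_ss_Sl.F_anti x y (by norm_num; exact hx) hxy
    · intro x hx
      exact cs_ss_Su.pos _ (cs_ss_le_fl (by norm_num; exact hx))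
    · intro x hx
      exact cs_ss_Sl.pos _ (cs_ss_le_fl (by norm_num; exact hx))
    · intro x y hx hxy
      exact cs_ss_Su.G_int x y (by norm_num; exact hx) hxy
    · intro x y hx hxy
      exact cs_ss_Sl.G_int x y (by norm_num; exact hx) hxy
    · intro x hx
      exact cs_ss_Su.G_nn x (by norm_num; exact hx)
    · intro x hx
      exact cs_ss_Sl.G_nn x (by norm_num; exact hx)
    · intro s hs
      have h1 := cs_ss_Su.G_le (s - 1) (by norm_num; linarith)
      rw [cs_ss_fl_sub] at h1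
      have h2 := cs_ss_low ⌊50 * s⌋₊ (cs_ss_le_fl (by norm_num; exact hs))
      obtain ⟨h3, h4⟩ := cs_ss_fl (show 0 ≤ s by linarith)
      have h5 := cs_ss_Sl.pos ⌊50 * s⌋₊ (cs_ss_le_fl (by norm_num; exact hs))
      have h6 : ((⌊50 * s⌋₊ : ℕ) : ℝ) / 50 * cs_ss_l ⌊50 * s⌋₊ ≤ s * cs_ss_l ⌊50 * s⌋₊ :=
        mul_le_mul_of_nonneg_right (by linarith) h5.le
      change _ ≤ s * cs_ss_l ⌊50 * s⌋₊
      linarith
    · intro s hs
      have h1 := cs_ss_Sl.G_le (s - 1) (by norm_num; linarith)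
      rw [cs_ss_fl_sub] at h1
      have h2 := cs_ss_up ⌊50 * s⌋₊ (cs_ss_le_fl (by norm_num; exact hs))
      obtain ⟨h3, h4⟩ := cs_ss_fl (show 0 ≤ s by linarith)
      have h5 := cs_ss_Su.pos ⌊50 * s⌋₊ (cs_ss_le_fl (by norm_num; linarith))
      have h6 : ((⌊50 * s⌋₊ : ℕ) : ℝ) / 50 * cs_ss_u ⌊50 * s⌋₊ ≤ s * cs_ss_u ⌊50 * s⌋₊ :=
        mul_le_mul_of_nonneg_right (by linarith) h5.le
      change _ ≤ s * cs_ss_u ⌊50 * s⌋₊
      linarith
    · intro s hs1 hs3
      have h50 : 50 ≤ ⌊50 * s⌋₊ := cs_ss_le_fl (by norm_num; exact hs1)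
      have h150 : ⌊50 * s⌋₊ < 150 := by
        rw [Nat.floor_lt (by linarith)]; push_cast; linarith
      obtain ⟨h3, h4⟩ := cs_ss_fl (show 0 ≤ s by linarith)
      change _ ≤ 1 + cs_ss_u ⌊50 * s⌋₊
      unfold cs_ss_u
      rw [if_pos (by omega)]
      have h2 := cs_ss_c13 (⌊50 * s⌋₊ - 50) (by omega)
      rw [show ⌊50 * s⌋₊ - 50 + 50 = ⌊50 * s⌋₊ by omega] at h2
      have h5 : (3665292 : ℝ) * 50 ≤ ((⌊50 * s⌋₊ : ℕ) : ℝ)
          * (10 ^ 6 + ((cs_ss_tu.getD (⌊50 * s⌋₊ - 50) 0 : ℕ) : ℝ)) := by exact_mod_cast h2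
      rw [div_le_iff₀ (by linarith)]
      have h6 : ((⌊50 * s⌋₊ : ℕ) : ℝ) * (10 ^ 6 + ((cs_ss_tu.getD (⌊50 * s⌋₊ - 50) 0 : ℕ) : ℝ))
          ≤ 50 * s * (10 ^ 6 + ((cs_ss_tu.getD (⌊50 * s⌋₊ - 50) 0 : ℕ) : ℝ)) :=
        mul_le_mul_of_nonneg_right h3 (by positivity)
      have e : (1 + ((cs_ss_tu.getD (⌊50 * s⌋₊ - 50) 0 : ℕ) : ℝ) / 10 ^ 6) * s
          = (50 * s * (10 ^ 6 + ((cs_ss_tu.getD (⌊50 * s⌋₊ - 50) 0 : ℕ) : ℝ))) / (50 * 10 ^ 6) := by
        ring
      rw [e]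
      linarith
    · have hf : ⌊50 * (3 : ℝ)⌋₊ = 150 := by norm_num
      change 3 * (1 + 1 / 200) * (1 + cs_ss_u ⌊50 * (3 : ℝ)⌋₊) ≤ _
      rw [hf]
      unfold cs_ss_u
      rw [if_pos (by norm_num)]
      have h1 := cs_ss_c14
      have h2 : (3 : ℝ) * 201 * (10 ^ 6 + ((cs_ss_tu.getD (150 - 50) 0 : ℕ) : ℝ)) ≤ 200 * 3665292 := by
        exact_mod_cast h1
      linarith
  · have hf : ⌊50 * (2.66 : ℝ)⌋₊ = 133 := by
      rw [Nat.floor_eq_iff (by norm_num)]; norm_num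
    change 1 + cs_ss_u ⌊50 * (2.66 : ℝ)⌋₊ ≤ _
    rw [hf]
    unfold cs_ss_u
    rw [if_pos (by norm_num)]
    have h2 : ((cs_ss_tu.getD (133 - 50) 0 : ℕ) : ℝ) ≤ 379000 := by exact_mod_cast cs_ss_c15
    rw [show (1.379 : ℝ) = 1 + 379000 / 10 ^ 6 by norm_num]
    linarith
  · have hf : ⌊50 * (2.66 : ℝ)⌋₊ = 133 := by
      rw [Nat.floor_eq_iff (by norm_num)]; norm_num
    change _ ≤ 1 - cs_ss_l ⌊50 * (2.66 : ℝ)⌋₊
    rw [hf]
    unfold cs_ss_l
    rw [if_pos (by norm_num)]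
    have h2 : ((cs_ss_tl.getD (133 - 100) 0 : ℕ) : ℝ) ≤ 360000 := by exact_mod_cast cs_ss_c16
    rw [show (0.64 : ℝ) = 1 - 360000 / 10 ^ 6 by norm_num]
    linarith

end Pool.Agent.CH.S
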