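import Pool.Agent.Lib.MP_d610d0_nt.CH.S.Stm

/-!
# MP_d610d0_nt, piece [CS abel]: comparison by partial summation
-/

set_option autoImplicit false

namespace Pool.Agent.CH.S

open Finset

private lemma cs_abel_aux (a : ℕ) (E f : ℕ → ℝ) : ∀ k : ℕ,
    (∀ n ≤ k + 1, 0 ≤ E (a + n)) → (∀ n, n < k → f (a + n) ≤ f (a + n + 1)) → 0 ≤ f a →
    0 ≤ ∑ n ∈ Ico a (a + k + 1), (E n - E (n + 1)) * f n + E (a + k + 1) * f (a + k) := by
  intro k
  induction k with
  | zero =>
    intro hE _ hf0
    have h1 : Ico a (a + 0 + 1) = {a} := by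
      ext n
      rw [mem_Ico, mem_singleton]
      omega
    rw [h1, sum_singleton, add_zero]
    have h2 := mul_nonneg (hE 0 (by omega)) hf0
    rw [add_zero] at h2
    linarith
  | succ k ih =>
    intro hE hf hf0
    have h1 := ih (fun n hn => hE n (by omega)) (fun n hn => hf n (by omega)) hf0
    rw [show a + (k + 1) + 1 = (a + k + 1) + 1 by ring, show a + (k + 1) = a + k + 1 by ring,
      sum_Ico_succ_top (by omega)]
    have h2 := hf k (by omega)
    have h3 : 0 ≤ E (a + k + 1) := hE (k + 1) (by omega)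
    have h4 := mul_nonneg h3 (sub_nonneg.2 h2)
    linarith

theorem p_abel : S_abel := by
  intro a m Vs Us f F ham hVU hf hf0 hfF hF
  rcases Nat.lt_or_ge a m with h | h
  · obtain ⟨k, rfl⟩ := Nat.exists_eq_add_of_lt h
    have h1 := cs_abel_aux a (fun n => Us n - Vs n) f k
      (fun n hn => sub_nonneg.2 (hVU (a + n) (by omega) (by omega)))
      (fun n hn => hf (a + n) (by omega) (by omega)) (hf0 a le_rfl (by omega))
    have h2 := hVU (a + k + 1) (by omega) le_rfl
    have h3 := hfF (a + k) (by omega) (by omega)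
    have h4 := mul_le_mul_of_nonneg_left h3 (sub_nonneg.2 h2)
    have h5 : ∑ n ∈ Ico a (a + k + 1), ((Us n - Vs n) - (Us (n + 1) - Vs (n + 1))) * f n =
        ∑ n ∈ Ico a (a + k + 1), (Us n - Us (n + 1)) * f n -
          ∑ n ∈ Ico a (a + k + 1), (Vs n - Vs (n + 1)) * f n := by
      rw [← sum_sub_distrib]
      exact sum_congr rfl (fun n _ => by ring)
    rw [h5] at h1
    linarith
  · have e : a = m := le_antisymm ham h
    subst e
    have h2 := hVU a le_rfl le_rfl
    have h4 := mul_nonneg (sub_nonneg.2 h2) hF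
    simpa using h4

end Pool.Agent.CH.S
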