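import Pool.Agent.Lib.MP_d610d0_nt.CH.S.Stm

set_option autoImplicit false

/-!
[CS comp] Composition of two sieves over disjoint sets of primes.
-/

namespace Pool.Agent.CH.S

open Finset
open Pool.Agent.BVall (RepB)

private lemma cs_comp_mul {P0 P1 : Finset ℕ} {Q0 Q1 : ℝ} {A B : (ℕ → ℝ) → ℝ}
    (hd : Disjoint P0 P1)
    (hA : RepB P0 (fun T => ∏ p ∈ T, (p : ℝ) ≤ Q0) A)
    (hB : RepB P1 (fun T => ∏ p ∈ T, (p : ℝ) ≤ Q1) B) :
    RepB (P0 ∪ P1) (fun T => ∏ p ∈ T, (p : ℝ) ≤ Q0 * Q1) (fun ρ => A ρ * B ρ) := by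
  refine (RepB.mul hd hA hB).mono ?_
  rintro T hT ⟨h1, h2⟩
  have e : ∏ p ∈ T, (p : ℝ) = (∏ p ∈ T ∩ P0, (p : ℝ)) * ∏ p ∈ T ∩ P1, (p : ℝ) :=
    Pool.Agent.Lib.MP_0da313_nt.prod_union_inter hd hT (fun p => (p : ℝ))
  have h0 : 0 ≤ ∏ p ∈ T ∩ P0, (p : ℝ) := Finset.prod_nonneg fun p _ => Nat.cast_nonneg p
  have h0' : 0 ≤ ∏ p ∈ T ∩ P1, (p : ℝ) := Finset.prod_nonneg fun p _ => Nat.cast_nonneg p
  show ∏ p ∈ T, (p : ℝ) ≤ Q0 * Q1
  rw [e]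
  exact mul_le_mul h1 h2 h0' (h0.trans h1)

theorem p_comp : S_comp := by
  intro P0 P1 Q0 Q1 Ap Am Bp Bm hd hAp hAm hBp hBm
  obtain ⟨c1, e1, b1, s1⟩ := cs_comp_mul hd hAp hBp
  obtain ⟨c2, e2, b2, s2⟩ := cs_comp_mul hd hAp hBm
  obtain ⟨c3, e3, b3, s3⟩ := cs_comp_mul hd hAm hBp
  refine ⟨⟨c1, e1, fun T => (b1 T).trans (by norm_num), s1⟩,
    ⟨fun T => c2 T + c3 T - c1 T, ?_, ?_, ?_⟩⟩
  · intro ρ
    have h1 := e1 ρ
    have h2 := e2 ρ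
    have h3 := e3 ρ
    beta_reduce at h1 h2 h3 ⊢
    rw [h1, h2, h3, ← Finset.sum_add_distrib, ← Finset.sum_sub_distrib]
    refine Finset.sum_congr rfl fun T _ => ?_
    ring
  · intro T
    have h1 := abs_le.1 (b1 T)
    have h2 := abs_le.1 (b2 T)
    have h3 := abs_le.1 (b3 T)
    beta_reduce
    rw [abs_le]
    constructor <;> linarith [h1.1, h1.2, h2.1, h2.2, h3.1, h3.2]
  · intro T hT h
    by_contra hQ
    apply h
    have z1 : c1 T = 0 := by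
      by_contra h1
      exact hQ (s1 T hT h1)
    have z2 : c2 T = 0 := by
      by_contra h1
      exact hQ (s2 T hT h1)
    have z3 : c3 T = 0 := by
      by_contra h1
      exact hQ (s3 T hT h1)
    show c2 T + c3 T - c1 T = 0
    rw [z1, z2, z3]
    norm_num

end Pool.Agent.CH.S
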