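import Pool.Agent.Lib.MP_d610d0_nt.CH.S.Stm

set_option autoImplicit false

/-!
[CS conv] From combinations over sets of primes to coefficients on integers.
-/

namespace Pool.Agent.CH.S

open Finset

private lemma cs_conv_sqf {T : Finset ℕ} (hT : ∀ p ∈ T, p.Prime) : Squarefree (∏ p ∈ T, p) := by
  induction T using Finset.induction_on with
  | empty => simp
  | insert q T hq ih =>
    rw [Finset.prod_insert hq]
    have hT' : ∀ p ∈ T, p.Prime := fun p hp => hT p (Finset.mem_insert_of_mem hp)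
    have hqp := hT q (Finset.mem_insert_self _ _)
    rw [Nat.squarefree_mul]
    · exact ⟨hqp.squarefree, ih hT'⟩
    · apply Nat.Coprime.prod_right
      intro p hp
      exact (Nat.coprime_primes hqp (hT' p hp)).2 (fun h => hq (h ▸ hp))

private lemma cs_conv_tot {T : Finset ℕ} (hT : ∀ p ∈ T, p.Prime) :
    (1 : ℝ) / (Nat.totient (∏ p ∈ T, p) : ℝ) = ∏ p ∈ T, gd p := by
  induction T using Finset.induction_on with
  | empty => simp
  | insert q T hq ih =>
    rw [Finset.prod_insert hq, Finset.prod_insert hq]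
    have hT' : ∀ p ∈ T, p.Prime := fun p hp => hT p (Finset.mem_insert_of_mem hp)
    have hqp := hT q (Finset.mem_insert_self _ _)
    rw [Nat.totient_mul, Nat.totient_prime hqp, ← ih hT']
    · unfold gd
      rw [Nat.cast_mul, Nat.cast_sub hqp.one_le, Nat.cast_one, one_div_mul_one_div]
    · apply Nat.Coprime.prod_right
      intro p hp
      exact (Nat.coprime_primes hqp (hT' p hp)).2 (fun h => hq (h ▸ hp))

open Classical in
private lemma cs_conv_sum {P : Finset ℕ} (hP : ∀ p ∈ P, p.Prime) (c0 : Finset ℕ → ℝ)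
    (S : Finset ℕ) (g : ℕ → ℝ) :
    ∑ d ∈ S, (if Squarefree d ∧ d.primeFactors ⊆ P then c0 d.primeFactors else 0) * g d
      = ∑ T ∈ P.powerset.filter (fun T => ∏ p ∈ T, p ∈ S), c0 T * g (∏ p ∈ T, p) := by
  have e1 : ∑ d ∈ S, (if Squarefree d ∧ d.primeFactors ⊆ P then c0 d.primeFactors else 0) * g d
      = ∑ d ∈ S.filter (fun d => Squarefree d ∧ d.primeFactors ⊆ P), c0 d.primeFactors * g d := by
    rw [Finset.sum_filter]
    refine Finset.sum_congr rfl fun d _ => ?_
    split_ifs
    · rfl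
    · rw [zero_mul]
  rw [e1]
  refine Finset.sum_nbij' (fun d => d.primeFactors) (fun T => ∏ p ∈ T, p) ?_ ?_ ?_ ?_ ?_
  · intro d hd
    rw [Finset.mem_filter] at hd
    rw [Finset.mem_filter, Finset.mem_powerset]
    refine ⟨hd.2.2, ?_⟩
    rw [Nat.prod_primeFactors_of_squarefree hd.2.1]
    exact hd.1
  · intro T hT
    rw [Finset.mem_filter, Finset.mem_powerset] at hT
    have hTp : ∀ p ∈ T, p.Prime := fun p hp => hP p (hT.1 hp)
    rw [Finset.mem_filter]
    refine ⟨hT.2, cs_conv_sqf hTp, ?_⟩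
    rw [Nat.primeFactors_prod hTp]
    exact hT.1
  · intro d hd
    rw [Finset.mem_filter] at hd
    exact Nat.prod_primeFactors_of_squarefree hd.2.1
  · intro T hT
    rw [Finset.mem_filter, Finset.mem_powerset] at hT
    exact Nat.primeFactors_prod (fun p hp => hP p (hT.1 hp))
  · intro d hd
    rw [Finset.mem_filter] at hd
    rw [Nat.prod_primeFactors_of_squarefree hd.2.1]

theorem p_conv : S_conv := by
  classical
  intro z Q P F hP hF
  obtain ⟨c0, h1, h2, h3⟩ := hF
  have hPp : ∀ p ∈ P, p.Prime := fun p hp => (hP p hp).1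
  set c : ℕ → ℝ := fun d => if Squarefree d ∧ d.primeFactors ⊆ P then c0 d.primeFactors else 0
    with hc
  have hne : ∀ d, c d ≠ 0 → Squarefree d ∧ d.primeFactors ⊆ P ∧ c0 d.primeFactors ≠ 0 := by
    intro d hd
    simp only [hc] at hd
    split_ifs at hd with h
    · exact ⟨h.1, h.2, hd⟩
    · exact absurd rfl hd
  have hprod : ∀ T : Finset ℕ, ((∏ p ∈ T, p : ℕ) : ℝ) = ∏ p ∈ T, (p : ℝ) := fun T => by
    push_cast
    rfl
  refine ⟨c, ⟨?_, ?_, ?_, ?_, ?_⟩, ?_, ?_⟩
  · intro d hd
    exact (hne d hd).1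
  · intro d hd
    obtain ⟨g1, g2, _⟩ := hne d hd
    rw [Nat.odd_iff]
    by_contra hodd
    have h2d : 2 ∣ d := by omega
    have := hP 2 (g2 (Nat.mem_primeFactors.2 ⟨Nat.prime_two, h2d, g1.ne_zero⟩))
    omega
  · intro d hd
    obtain ⟨g1, g2, g3⟩ := hne d hd
    have := h3 d.primeFactors (Finset.mem_powerset.2 g2) g3
    beta_reduce at this
    rw [← hprod, Nat.prod_primeFactors_of_squarefree g1] at this
    exact this
  · intro d hd p hp hpd
    obtain ⟨g1, g2, _⟩ := hne d hd
    exact (hP p (g2 (Nat.mem_primeFactors.2 ⟨hp, hpd, g1.ne_zero⟩))).2.2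
  · intro d
    simp only [hc]
    split_ifs
    · exact h2 _
    · norm_num
  · intro n hn
    have e1 : dsum c n = ∑ d ∈ n.divisors, c d * (1 : ℝ) := by
      unfold dsum
      refine Finset.sum_congr rfl fun d _ => by rw [mul_one]
    rw [e1, cs_conv_sum hPp c0 n.divisors (fun _ => 1), Finset.sum_filter, h1]
    refine Finset.sum_congr rfl fun T hT => ?_
    rw [Finset.mem_powerset] at hT
    rw [Finset.prod_ite_zero, Finset.prod_const_one]
    have hiff : (∏ p ∈ T, p ∈ n.divisors) ↔ ∀ p ∈ T, p ∣ n := by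
      rw [Nat.mem_divisors]
      constructor
      · intro h p hp
        exact (Finset.dvd_prod_of_mem _ hp).trans h.1
      · intro h
        exact ⟨Finset.prod_primes_dvd n (fun p hp => (hPp p (hT hp)).prime) h, hn⟩
    by_cases h : ∀ p ∈ T, p ∣ n
    · rw [if_pos (hiff.2 h), if_pos h]
    · rw [if_neg (fun h' => h (hiff.1 h')), if_neg h, mul_zero]
  · intro N hN
    have e1 : ∑ d ∈ Icc 1 N, c d / (Nat.totient d : ℝ)
        = ∑ d ∈ Icc 1 N, c d * (1 / (Nat.totient d : ℝ)) := by
      refine Finset.sum_congr rfl fun d _ => by rw [mul_one_div]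
    rw [e1, cs_conv_sum hPp c0 (Icc 1 N) (fun d => 1 / (Nat.totient d : ℝ)), h1]
    rw [Finset.sum_filter_of_ne]
    · refine Finset.sum_congr rfl fun T hT => ?_
      rw [Finset.mem_powerset] at hT
      rw [cs_conv_tot (fun p hp => hPp p (hT hp))]
    · intro T hT hT0
      have hc0 : c0 T ≠ 0 := fun h => hT0 (by rw [h, zero_mul])
      have hle := h3 T hT hc0
      rw [Finset.mem_powerset] at hT
      rw [← hprod] at hle
      rw [Finset.mem_Icc]
      refine ⟨Nat.one_le_iff_ne_zero.2 (Finset.prod_ne_zero_iff.2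
        fun p hp => (hPp p (hT hp)).ne_zero), ?_⟩
      exact_mod_cast hle.trans hN

end Pool.Agent.CH.S
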