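import Pool.Agent.Lib.MP_d610d0_nt.CH.S.Stm

set_option autoImplicit false

/-!
Piece eps.
-/

namespace Pool.Agent.CH.S

open Finset

/-- one of the two inequalities -/
private theorem cs_eps_one (ε δ B s A X Y : ℝ) (hε : 0 < ε) (hε4 : ε ≤ 1 / 400)
    (hB : 0 < B) (hεB : ε ≤ δ / (402 * B)) (hs : 0 < s) (hA : 0 ≤ A)
    (h1 : (1 + 1 / 200) * A ≤ s * X) (hY : Y ≤ B) (hX : δ ≤ X) :
    (1 + ε) * (1 / s) * A + ε * Y ≤ X := by
  have h2 : 0 ≤ 1 / s * A := by positivity
  have h3 : (1 + 1 / 200) * (1 / s * A) ≤ X := by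
    have h4 : (1 + 1 / 200) * (1 / s * A) = (1 / s) * ((1 + 1 / 200) * A) := by ring
    rw [h4]
    have h5 := mul_le_mul_of_nonneg_left h1 (by positivity : 0 ≤ 1 / s)
    have h6 : (1 / s) * (s * X) = X := by field_simp
    linarith
  have h7 : ε * Y ≤ δ / 402 := by
    have h8 : ε * Y ≤ ε * B := mul_le_mul_of_nonneg_left hY hε.le
    have h9 : ε * B ≤ δ / (402 * B) * B := mul_le_mul_of_nonneg_right hεB hB.le
    have h10 : δ / (402 * B) * B = δ / 402 := by field_simp
    linarith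
  have h11 : (1 + ε) * (1 / s) * A = (1 + ε) * (1 / s * A) := by ring
  rw [h11]
  have h12 : ε * (1 / s * A) ≤ 1 / 400 * (1 / s * A) := mul_le_mul_of_nonneg_right hε4 h2
  linarith

theorem p_eps : S_eps := by
  intro u l U L K h S hS
  have hδ : 0 < min (l S) (u S) := lt_min (h.l_pos S (by linarith)) (h.u_pos S (by linarith))
  have hB : 0 < max (u 1) (l 2) := lt_max_of_lt_left (h.u_pos 1 le_rfl)
  have hε : 0 < min (1 / 400) (min (l S) (u S) / (402 * max (u 1) (l 2))) :=
    lt_min (by norm_num) (by positivity)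
  refine ⟨min (1 / 400) (min (l S) (u S) / (402 * max (u 1) (l 2))), hε, ?_, ?_, ?_⟩
  · exact (min_le_left _ _).trans (by norm_num)
  · intro s hs hsS
    refine cs_eps_one _ _ _ s _ _ _ hε (min_le_left _ _) hB (min_le_right _ _) (by linarith)
      (h.U_nn _ (by linarith)) (h.low s hs) ?_ ?_
    · exact (h.u_anti 1 (s - 1) le_rfl (by linarith)).trans (le_max_left _ _)
    · exact (min_le_left _ _).trans (h.l_anti s S hs hsS)
  · intro s hs hsS
    refine cs_eps_one _ _ _ s _ _ _ hε (min_le_left _ _) hB (min_le_right _ _) (by linarith)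
      (h.L_nn _ (by linarith)) (h.up s hs) ?_ ?_
    · exact (h.l_anti 2 (s - 1) le_rfl (by linarith)).trans (le_max_right _ _)
    · exact (min_le_right _ _).trans (h.u_anti s S (by linarith) hsS)

end Pool.Agent.CH.S
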