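import Pool.Agent.Lib.MP_d610d0_nt.CH.S.Stm

set_option autoImplicit false

/-!
Piece exp: expansion of the recursion.
-/

namespace Pool.Agent.CH.S

open Finset

private theorem cs_exp_Pr_pos (a w : ℕ) (h : w.Prime ∧ a ≤ w) : Pr a (w + 1) = insert w (Pr a w) := by
  unfold Pr
  rw [range_add_one, filter_insert, if_pos h]

private theorem cs_exp_Pr_neg (a w : ℕ) (h : ¬ (w.Prime ∧ a ≤ w)) : Pr a (w + 1) = Pr a w := by
  unfold Pr
  rw [range_add_one, filter_insert, if_neg h]

private theorem cs_exp_notMem (a w : ℕ) : w ∉ Pr a w := by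
  unfold Pr
  simp

theorem p_exp : S_exp := by
  classical
  intro a ρ w
  induction w with
  | zero =>
    intro b D
    simp [th, Pr]
  | succ w ih =>
    intro b D
    rw [th]
    beta_reduce
    by_cases h : w.Prime ∧ a ≤ w
    · rw [cs_exp_Pr_pos a w h, sum_insert (cs_exp_notMem a w), ih b D]
      by_cases h2 : (b = true → (w : ℝ) ^ 3 < D)
      · rw [if_pos ⟨h.1, h.2, h2⟩, if_pos h2]
        ring
      · rw [if_neg (fun h3 => h2 h3.2.2), if_neg h2]
        ring
    · rw [cs_exp_Pr_neg a w h, ih b D, if_neg (fun h3 => h ⟨h3.1, h3.2.1⟩), sub_zero]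

end Pool.Agent.CH.S
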