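import Pool.Agent.Lib.MP_d610d0_nt.CH.S.Stm

set_option autoImplicit false

/-!
Section S (sieve weights), piece fin: the assembly.
-/

namespace Pool.Agent.CH.S

open Finset
open Pool.Agent.BVall (RepB)

/-- The indicator of the divisibility. -/
private noncomputable def cs_fin_rho (n : ℕ) : ℕ → ℝ := fun p => if p ∣ n then 1 else 0

private theorem cs_fin_rho_bd (n p : ℕ) : 0 ≤ cs_fin_rho n p ∧ cs_fin_rho n p ≤ 1 := by
  unfold cs_fin_rho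
  split_ifs <;> norm_num

private theorem cs_fin_disj (X k : ℕ) : Disjoint (OP X) (Pr (X + 1) k) := by
  rw [Finset.disjoint_left]
  intro p hp hp'
  unfold OP at hp
  unfold Pr at hp'
  rw [Finset.mem_filter, Finset.mem_range] at hp hp'
  omega

private theorem cs_fin_mem (X : ℕ) (z : ℝ) (hX : ((X + 1 : ℕ) : ℝ) ≤ z) (hX2 : 2 ≤ X) :
    ∀ p ∈ OP X ∪ Pr (X + 1) ⌈z⌉₊, p.Prime ∧ 2 < p ∧ (p : ℝ) < z := by
  intro p hp
  rcases Finset.mem_union.1 hp with h | h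
  · unfold OP at h
    rw [Finset.mem_filter, Finset.mem_range] at h
    refine ⟨h.2.1, h.2.2, lt_of_lt_of_le ?_ hX⟩
    exact_mod_cast h.1
  · unfold Pr at h
    rw [Finset.mem_filter, Finset.mem_range] at h
    exact ⟨h.2.1, by omega, Nat.lt_ceil.1 h.1⟩

/-- The product of the two indicators. -/
private theorem cs_fin_prod (X : ℕ) (z : ℝ) (hX : ((X + 1 : ℕ) : ℝ) ≤ z) (hX2 : 2 ≤ X) (n : ℕ)
    (hn : Odd n) :
    (Rough z n → (∏ p ∈ OP X, (1 - cs_fin_rho n p)) *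
      (∏ p ∈ Pr (X + 1) ⌈z⌉₊, (1 - cs_fin_rho n p)) = 1) ∧
    (¬ Rough z n → (∏ p ∈ OP X, (1 - cs_fin_rho n p)) *
      (∏ p ∈ Pr (X + 1) ⌈z⌉₊, (1 - cs_fin_rho n p)) = 0) := by
  rw [← Finset.prod_union (cs_fin_disj X ⌈z⌉₊)]
  constructor
  · intro h
    apply Finset.prod_eq_one
    intro p hp
    obtain ⟨h1, h2, h3⟩ := cs_fin_mem X z hX hX2 p hp
    have : ¬ p ∣ n := fun hd => absurd (h p h1 hd) (not_le.2 h3)
    unfold cs_fin_rho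
    rw [if_neg this, sub_zero]
  · intro h
    unfold Rough at h
    push Not at h
    obtain ⟨p, hp, hd, hz⟩ := h
    have hp2 : p ≠ 2 := by
      rintro rfl
      rw [← Nat.not_even_iff_odd] at hn
      exact hn (even_iff_two_dvd.2 hd)
    have hp3 : 2 < p := lt_of_le_of_ne hp.two_le (Ne.symm hp2)
    have hmem : p ∈ OP X ∪ Pr (X + 1) ⌈z⌉₊ := by
      rw [Finset.mem_union]
      by_cases hpX : p ≤ X
      · left
        unfold OP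
        rw [Finset.mem_filter, Finset.mem_range]
        exact ⟨by omega, hp, hp3⟩
      · right
        unfold Pr
        rw [Finset.mem_filter, Finset.mem_range]
        exact ⟨Nat.lt_ceil.2 hz, hp, by omega⟩
    apply Finset.prod_eq_zero hmem
    unfold cs_fin_rho
    rw [if_pos hd, sub_self]

private theorem cs_fin_nn (P : Finset ℕ) (n : ℕ) : 0 ≤ ∏ p ∈ P, (1 - cs_fin_rho n p) :=
  Finset.prod_nonneg fun p _ => by linarith [(cs_fin_rho_bd n p).2]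

private theorem cs_fin_gd {p : ℕ} (hp : 2 < p) : 0 ≤ gd p ∧ gd p ≤ 1 := by
  have h1 : (3 : ℝ) ≤ p := by exact_mod_cast hp
  unfold gd
  constructor
  · apply div_nonneg zero_le_one
    linarith
  · rw [div_le_one (by linarith)]
    linarith

private theorem cs_fin_low {Ap Am Bp Bm I1 I2 : ℝ} (h1 : Am ≤ I1) (h2 : I1 ≤ Ap) (h3 : Bm ≤ I2)
    (h4 : I2 ≤ Bp) (h5 : 0 ≤ I1) (h6 : 0 ≤ I2) : Ap * Bm + Am * Bp - Ap * Bp ≤ I1 * I2 := by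
  have k1 : Ap * Bm ≤ Ap * I2 := mul_le_mul_of_nonneg_left h3 (h5.trans h2)
  have k2 : Am * Bp ≤ I1 * Bp := mul_le_mul_of_nonneg_right h1 (h6.trans h4)
  have k3 : 0 ≤ (Ap - I1) * (Bp - I2) := mul_nonneg (by linarith) (by linarith)
  nlinarith

private theorem cs_fin_main {Ap Am Bp Bm V0 V1 : ℝ} (h0 : 0 ≤ V0) (h1 : 0 < V1) (a1 : V0 ≤ Ap)
    (a2 : Ap ≤ (1 + 1 / 1000) * V0) (a3 : (1 - 1 / 1000) * V0 ≤ Am) (b1 : V1 ≤ Bp)
    (b2 : Bp ≤ V1 * 1.379) (b3 : V1 * 0.64 ≤ Bm) :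
    Ap * Bp ≤ 1.39 * (V0 * V1) ∧ 0.62 * (V0 * V1) ≤ Ap * Bm + Am * Bp - Ap * Bp := by
  have hv : 0 ≤ V0 * V1 := mul_nonneg h0 h1.le
  constructor
  · calc Ap * Bp ≤ ((1 + 1 / 1000) * V0) * (V1 * 1.379) :=
        mul_le_mul a2 b2 (h1.le.trans b1) (by nlinarith)
      _ ≤ 1.39 * (V0 * V1) := by nlinarith
  · have k1 : V0 * (V1 * 0.64) ≤ Ap * Bm := mul_le_mul a1 b3 (by nlinarith) (h0.trans a1)
    have k2 : (Ap - Am) * Bp ≤ (0.002 * V0) * (V1 * 1.379) := by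
      have k3 : (Ap - Am) ≤ 0.002 * V0 := by linarith
      have k4 : 0 ≤ Bp := h1.le.trans b1
      calc (Ap - Am) * Bp ≤ (0.002 * V0) * Bp := mul_le_mul_of_nonneg_right k3 k4
        _ ≤ (0.002 * V0) * (V1 * 1.379) := mul_le_mul_of_nonneg_left b2 (by nlinarith)
    nlinarith

theorem p_fin : S_fin := by
  intro hpt hrep htel hmer hss hls hfl hconv hcomp hpar
  obtain ⟨u, l, U, L, K, hSS, hu, hl⟩ := hss
  obtain ⟨ε, hε, hLS⟩ := hls u l U L K hSS 204000 (by norm_num)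
  obtain ⟨a0, ha0, hM⟩ := hmer ε hε
  obtain ⟨C0, hF⟩ := hfl
  obtain ⟨J0, hJ⟩ := hpar C0 a0
  refine ⟨J0, fun J hJJ => ?_⟩
  obtain ⟨m, hm2, hma, hmC, hmz, hz2, hzD, hD1, hlog, h266, hprod, hQJ⟩ := hJ J hJJ
  obtain ⟨Fp, Fm, hRp, hRm, hpt0, hFp, hFm⟩ := hF m hm2
  obtain ⟨X, hX⟩ : ∃ X : ℕ, X = 2 ^ 2 ^ m := ⟨_, rfl⟩
  rw [← hX] at hma hmz hlog hRp hRm hpt0 hFp hFm
  have hXr : ((2 : ℝ) ^ 2 ^ m) = (X : ℝ) := by rw [hX]; push_cast; rfl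
  rw [hXr] at hmC hRp hRm
  have hX2 : 2 ≤ X := by omega
  have ha3 : 3 ≤ X + 1 := by omega
  generalize hz : zJ J = z at *
  generalize hD : (J : ℝ) ^ (0.9985 : ℝ) = D at *
  generalize hQ0 : (J : ℝ) ^ (0.0005 : ℝ) = Q0 at *
  obtain ⟨hUp, hLo⟩ := hLS (X + 1) ha3 (hM (X + 1) hma) D z hmz hzD hlog
  have hLo := hLo hz2
  have hz3 : (3 : ℝ) ≤ z := by
    have : (3 : ℝ) ≤ ((X + 1 : ℕ) : ℝ) := by exact_mod_cast ha3
    linarith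
  have hkD : ((⌈z⌉₊ : ℕ) : ℝ) ≤ D := by
    have h1 := Nat.ceil_lt_add_one (show 0 ≤ z by linarith)
    nlinarith
  -- representations
  have hB1 := (hrep (X + 1) ⌈z⌉₊ true D hD1 (fun h => absurd h (by simp))).mono
    (Q' := fun T => ∏ p ∈ T, (p : ℝ) ≤ D) (fun T _ h => le_of_lt h)
  have hB2 := (hrep (X + 1) ⌈z⌉₊ false D hD1 (fun _ => hkD)).mono
    (Q' := fun T => ∏ p ∈ T, (p : ℝ) ≤ D) (fun T _ h => le_of_lt h)
  have hA1 := hRp.mono (Q' := fun T => ∏ p ∈ T, (p : ℝ) ≤ Q0) (fun T _ h => le_trans h hmC)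
  have hA2 := hRm.mono (Q' := fun T => ∏ p ∈ T, (p : ℝ) ≤ Q0) (fun T _ h => le_trans h hmC)
  obtain ⟨hc1, hc2⟩ := hcomp (OP X) (Pr (X + 1) ⌈z⌉₊) Q0 D Fp Fm _ _ (cs_fin_disj X _)
    hA1 hA2 hB1 hB2
  obtain ⟨cp, hWp, hdp, hNp⟩ := hconv z (Q0 * D) _ _ (cs_fin_mem X z hmz hX2) hc1
  obtain ⟨cm, hWm, hdm, hNm⟩ := hconv z (Q0 * D) _ _ (cs_fin_mem X z hmz hX2) hc2
  rw [hprod] at hWp hWm
  have hpw : ∀ n : ℕ, Odd n →
      (Fm (cs_fin_rho n) ≤ ∏ p ∈ OP X, (1 - cs_fin_rho n p) ∧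
        ∏ p ∈ OP X, (1 - cs_fin_rho n p) ≤ Fp (cs_fin_rho n)) ∧
      (th (X + 1) (cs_fin_rho n) ⌈z⌉₊ false D ≤
          ∏ p ∈ Pr (X + 1) ⌈z⌉₊, (1 - cs_fin_rho n p) ∧
        ∏ p ∈ Pr (X + 1) ⌈z⌉₊, (1 - cs_fin_rho n p) ≤
          th (X + 1) (cs_fin_rho n) ⌈z⌉₊ true D) := fun n _ =>
    ⟨hpt0 _ (fun p _ => cs_fin_rho_bd n p),
      hpt (X + 1) (cs_fin_rho n) ⌈z⌉₊ D (fun p _ => cs_fin_rho_bd n p)⟩
  refine ⟨cp, cm, hWp, hWm, ?_, ?_, ?_⟩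
  · intro n hn
    obtain ⟨⟨h1, h2⟩, h3, h4⟩ := hpw n hn
    have hn0 : n ≠ 0 := by rintro rfl; simp at hn
    have hle : dsum cm n ≤ (∏ p ∈ OP X, (1 - cs_fin_rho n p)) *
        (∏ p ∈ Pr (X + 1) ⌈z⌉₊, (1 - cs_fin_rho n p)) := by
      rw [hdm n hn0]
      exact cs_fin_low h1 h2 h3 h4 (cs_fin_nn _ n) (cs_fin_nn _ n)
    obtain ⟨k1, k2⟩ := cs_fin_prod X z hmz hX2 n hn
    by_cases hR : Rough z n
    · rw [if_pos hR]
      rwa [k1 hR] at hle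
    · rw [if_neg hR]
      rwa [k2 hR] at hle
  · intro n hn
    obtain ⟨⟨h1, h2⟩, h3, h4⟩ := hpw n hn
    have hn0 : n ≠ 0 := by rintro rfl; simp at hn
    have hle : (∏ p ∈ OP X, (1 - cs_fin_rho n p)) *
        (∏ p ∈ Pr (X + 1) ⌈z⌉₊, (1 - cs_fin_rho n p)) ≤ dsum cp n := by
      rw [hdp n hn0]
      exact mul_le_mul h2 h4 (cs_fin_nn _ n) ((cs_fin_nn _ n).trans h2)
    obtain ⟨k1, k2⟩ := cs_fin_prod X z hmz hX2 n hn
    by_cases hR : Rough z n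
    · rw [if_pos hR]
      rwa [k1 hR] at hle
    · rw [if_neg hR]
      rwa [k2 hR] at hle
  · have hle : Q0 * D ≤ (J : ℝ) := by rw [hprod]; exact hQJ
    rw [hNp J hle, hNm J hle]
    obtain ⟨t1, t2, t3, t4, t5⟩ := htel (X + 1) ha3
    have hVV := t5 X z hX2 (by push_cast at hmz; exact hmz)
    rw [hVV]
    have g0 : ∀ p ∈ OP X, 0 ≤ gd p ∧ gd p ≤ 1 := fun p hp =>
      cs_fin_gd (cs_fin_mem X z hmz hX2 p (Finset.mem_union_left _ hp)).2.1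
    have g1 : ∀ p ∈ Pr (X + 1) ⌈z⌉₊, 0 ≤ gd p ∧ gd p ≤ 1 := fun p hp =>
      cs_fin_gd (cs_fin_mem X z hmz hX2 p (Finset.mem_union_right _ hp)).2.1
    have hV0 : 0 ≤ ∏ p ∈ OP X, (1 - gd p) :=
      Finset.prod_nonneg fun p hp => by linarith [(g0 p hp).2]
    obtain ⟨p1, p2⟩ := hpt0 gd g0
    obtain ⟨q1, q2⟩ := hpt (X + 1) gd ⌈z⌉₊ D g1
    unfold UpC at hUp
    unfold LoC at hLo
    have hus := hSS.u_anti 2.66 _ (by norm_num) h266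
    have hls := hSS.l_anti 2.66 _ (by norm_num) h266
    have hV1 := (t1 ⌈z⌉₊).1
    have b2 : th (X + 1) gd ⌈z⌉₊ true D ≤ V (X + 1) ⌈z⌉₊ * 1.379 :=
      hUp.trans (mul_le_mul_of_nonneg_left (by linarith) hV1.le)
    have b3 : V (X + 1) ⌈z⌉₊ * 0.64 ≤ th (X + 1) gd ⌈z⌉₊ false D :=
      (mul_le_mul_of_nonneg_left (by linarith) hV1.le).trans hLo
    exact cs_fin_main hV0 hV1 p2 hFp hFm q2 b2 b3

end Pool.Agent.CH.S
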