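import Pool.Agent.Lib.MP_d610d0_nt.CH.S.Stm

set_option autoImplicit false

/-!
[CS fl] The fundamental lemma (Brun-Hooley) for the odd primes up to `2^(2^m)`.
-/

namespace Pool.Agent.CH.S

open Finset
open Pool.Agent.Lib.MP_0da313_nt
open Pool.Agent.BVall

private abbrev cs_fl_B0 : Finset ℕ := (small 2).erase 2

private abbrev cs_fl_B : ℕ → Finset ℕ := fun i => blk (2 + i)

private noncomputable abbrev cs_fl_rho : ℕ → ℝ := fun p => if p.Prime ∧ 2 < p then gd p else 0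

private lemma cs_fl_big (n : ℕ) : 2 ≤ 2 ^ (2 ^ (2 + n)) := by
  calc 2 = 2 ^ 1 := rfl
    _ ≤ 2 ^ (2 ^ (2 + n)) := Nat.pow_le_pow_right (by norm_num) Nat.one_le_two_pow

private lemma cs_fl_mem (n p : ℕ) :
    p ∈ PP cs_fl_B0 cs_fl_B n ↔ (p.Prime ∧ 2 < p) ∧ p ≤ 2 ^ (2 ^ (2 + n)) := by
  induction n with
  | zero =>
    simp only [PP, small, Finset.mem_erase, Finset.mem_filter, Finset.mem_range, Nat.lt_succ_iff,
      add_zero]
    constructor
    · rintro ⟨h1, h2, h3⟩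
      have := h3.two_le
      exact ⟨⟨h3, by omega⟩, h2⟩
    · rintro ⟨⟨h1, h2⟩, h3⟩
      exact ⟨by omega, h3, h1⟩
  | succ n ih =>
    rw [mem_PP_succ, ih, mem_blk, show 2 + (n + 1) = 2 + n + 1 by ring]
    have hmono : 2 ^ (2 ^ (2 + n)) ≤ 2 ^ (2 ^ (2 + n + 1)) :=
      Nat.pow_le_pow_right (by norm_num) (Nat.pow_le_pow_right (by norm_num) (by omega))
    have hbig := cs_fl_big n
    constructor
    · rintro (⟨h1, h2⟩ | ⟨⟨h1, h2⟩, h3⟩)
      · exact ⟨h1, h2.trans hmono⟩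
      · exact ⟨⟨h3, lt_of_le_of_lt hbig h1⟩, h2⟩
    · rintro ⟨h1, h2⟩
      rcases le_or_gt p (2 ^ (2 ^ (2 + n))) with h3 | h3
      · exact Or.inl ⟨h1, h3⟩
      · exact Or.inr ⟨⟨h3, h2⟩, h1.1⟩

private lemma cs_fl_PP (n : ℕ) : PP cs_fl_B0 cs_fl_B n = OP (2 ^ 2 ^ (2 + n)) := by
  ext p
  rw [cs_fl_mem]
  unfold OP
  rw [Finset.mem_filter, Finset.mem_range, Nat.lt_succ_iff]
  tauto

private lemma cs_fl_disj (i : ℕ) : Disjoint (PP cs_fl_B0 cs_fl_B i) (cs_fl_B i) := by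
  rw [Finset.disjoint_left]
  intro p hp hp'
  rw [cs_fl_mem] at hp
  rw [mem_blk] at hp'
  omega

private lemma cs_fl_gd0 {p : ℕ} (hp : 2 < p) : 0 ≤ gd p := by
  have h : (2 : ℝ) < p := by exact_mod_cast hp
  unfold gd
  apply div_nonneg zero_le_one
  linarith

private lemma cs_fl_gd1 {p : ℕ} (hp : 2 < p) : gd p < 1 := by
  have h : (2 : ℝ) < p := by exact_mod_cast hp
  unfold gd
  rw [div_lt_one (by linarith)]
  linarith

private lemma cs_fl_dens : Dens 2 cs_fl_rho := by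
  refine ⟨?_, ?_, ?_⟩
  · intro p
    show 0 ≤ (if p.Prime ∧ 2 < p then gd p else 0)
    split_ifs with h
    · exact cs_fl_gd0 h.2
    · exact le_rfl
  · intro p hp
    have h2 : (2 : ℝ) ≤ p := by exact_mod_cast hp.two_le
    show (if p.Prime ∧ 2 < p then gd p else 0) ≤ 1 - 1 / (p : ℝ)
    split_ifs with h
    · have h3 : (3 : ℝ) ≤ p := by exact_mod_cast h.2
      unfold gd
      rw [div_le_iff₀ (by linarith)]
      have h4 : (1 - 1 / (p : ℝ)) * ((p : ℝ) - 1) = (p : ℝ) - 2 + 1 / p := by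
        field_simp
        ring
      rw [h4]
      have : 0 < 1 / (p : ℝ) := by positivity
      linarith
    · rw [sub_nonneg, div_le_one (by linarith)]
      linarith
  · intro p hp
    have h2 : (2 : ℝ) ≤ p := by exact_mod_cast hp.two_le
    show (if p.Prime ∧ 2 < p then gd p else 0) ≤ ((2 : ℕ) : ℝ) / (p : ℝ)
    split_ifs with h
    · unfold gd
      rw [div_le_div_iff₀ (by linarith) (by linarith)]
      push_cast
      linarith
    · positivity

private lemma cs_fl_blk {i p : ℕ} (hp : p ∈ blk (2 + i)) : p.Prime ∧ 2 < p := by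
  rw [mem_blk] at hp
  exact ⟨hp.2, lt_of_le_of_lt (cs_fl_big i) hp.1.1⟩

private lemma cs_fl_E (i k : ℕ) : E gd (blk (2 + i)) k = E cs_fl_rho (blk (2 + i)) k := by
  unfold E
  refine Finset.sum_congr rfl fun T hT => Finset.prod_congr rfl fun p hp => ?_
  rw [Finset.mem_powersetCard] at hT
  show gd p = (if p.Prime ∧ 2 < p then gd p else 0)
  rw [if_pos (cs_fl_blk (hT.1 hp))]

private lemma cs_fl_W (i : ℕ) : W gd (blk (2 + i)) = W cs_fl_rho (blk (2 + i)) := by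
  unfold W
  refine Finset.prod_congr rfl fun p hp => ?_
  show 1 - gd p = 1 - (if p.Prime ∧ 2 < p then gd p else 0)
  rw [if_pos (cs_fl_blk hp)]

private lemma cs_fl_ratio (n i : ℕ) :
    E gd (blk (2 + i)) (bb 2 (n + 3) i + 1) / W gd (blk (2 + i))
      ≤ (1 / 4) * (1 / 16) ^ (n + 3 - 1 - i) := by
  rw [cs_fl_E, cs_fl_W]
  exact cs_fl_dens.ratio (n + 3) i

private lemma cs_fl_Wpos (i : ℕ) : 0 < W gd (blk (2 + i)) := by
  unfold W
  exact Finset.prod_pos fun p hp => by linarith [cs_fl_gd1 (cs_fl_blk hp).2]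

private lemma cs_fl_geom (n : ℕ) :
    ∑ i ∈ range n, (1 / 4 : ℝ) * (1 / 16) ^ (n + 3 - 1 - i) ≤ 1 / 10000 := by
  have e : ∑ i ∈ range n, (1 / 4 : ℝ) * (1 / 16) ^ (n + 3 - 1 - i)
      = (1 / 16) ^ 3 * ∑ i ∈ range n, (1 / 4 : ℝ) * (1 / 16) ^ (n - 1 - i) := by
    rw [Finset.mul_sum]
    refine Finset.sum_congr rfl fun i hi => ?_
    rw [Finset.mem_range] at hi
    rw [show n + 3 - 1 - i = 3 + (n - 1 - i) by omega, pow_add]
    ring
  rw [e]
  have := geom_le n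
  nlinarith

private lemma cs_fl_W0 (n : ℕ) : 0 ≤ W gd (PP cs_fl_B0 cs_fl_B n) :=
  W_nonneg fun p hp => (cs_fl_gd1 ((cs_fl_mem n p).1 hp).1.2).le

private lemma cs_fl_upper (n : ℕ) :
    YY cs_fl_B0 cs_fl_B (bb 2 (n + 3)) gd n ≤ (1 + 1 / 1000) * W gd (PP cs_fl_B0 cs_fl_B n) := by
  have key : ∀ m ≤ n, YY cs_fl_B0 cs_fl_B (bb 2 (n + 3)) gd m ≤
      W gd (PP cs_fl_B0 cs_fl_B m) *
        ∏ i ∈ range m, (1 + (1 / 4) * (1 / 16) ^ (n + 3 - 1 - i)) := by
    intro m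
    induction m with
    | zero =>
      intro _
      simp only [Finset.range_zero, Finset.prod_empty, mul_one]
      exact le_rfl
    | succ m ih =>
      intro hm
      have ih := ih (by omega)
      have hW : W gd (PP cs_fl_B0 cs_fl_B (m + 1)) =
          W gd (PP cs_fl_B0 cs_fl_B m) * W gd (blk (2 + m)) :=
        W_union (cs_fl_disj m)
      have hWpos' : 0 < W gd (blk (2 + m)) := cs_fl_Wpos m
      have hb0 : ∀ p ∈ blk (2 + m), 0 ≤ gd p := fun p hp => cs_fl_gd0 (cs_fl_blk hp).2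
      have hb1 : ∀ p ∈ blk (2 + m), gd p ≤ 1 := fun p hp => (cs_fl_gd1 (cs_fl_blk hp).2).le
      have u2 := U_le_W_add_E gd (blk (2 + m)) hb0 hb1 (bb_even 2 (n + 3) m)
      have u1 := W_le_U gd (blk (2 + m)) hb0 hb1 (bb_even 2 (n + 3) m)
      have hr := cs_fl_ratio n m
      rw [div_le_iff₀ hWpos'] at hr
      rw [Finset.prod_range_succ, hW]
      have hU : U gd (blk (2 + m)) (bb 2 (n + 3) m) ≤
          W gd (blk (2 + m)) * (1 + (1 / 4) * (1 / 16) ^ (n + 3 - 1 - m)) := by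
        nlinarith
      have hP0 : 0 ≤ ∏ i ∈ range m, (1 + (1 / 4 : ℝ) * (1 / 16) ^ (n + 3 - 1 - i)) :=
        Finset.prod_nonneg fun i _ => by positivity
      show YY cs_fl_B0 cs_fl_B (bb 2 (n + 3)) gd m * U gd (blk (2 + m)) (bb 2 (n + 3) m) ≤ _
      calc _ ≤ (W gd (PP cs_fl_B0 cs_fl_B m) *
            ∏ i ∈ range m, (1 + (1 / 4) * (1 / 16) ^ (n + 3 - 1 - i))) *
            (W gd (blk (2 + m)) * (1 + (1 / 4) * (1 / 16) ^ (n + 3 - 1 - m))) := by
            apply mul_le_mul ih hU (hWpos'.le.trans u1) (mul_nonneg (cs_fl_W0 m) hP0)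
        _ = _ := by ring
  have h1 := key n le_rfl
  have h2 : ∏ i ∈ range n, (1 + (1 / 4 : ℝ) * (1 / 16) ^ (n + 3 - 1 - i)) ≤ 1 + 1 / 1000 := by
    have h3 : ∏ i ∈ range n, (1 + (1 / 4 : ℝ) * (1 / 16) ^ (n + 3 - 1 - i)) ≤
        ∏ i ∈ range n, Real.exp ((1 / 4 : ℝ) * (1 / 16) ^ (n + 3 - 1 - i)) := by
      apply Finset.prod_le_prod
      · intro i _; positivity
      · intro i _
        have := Real.add_one_le_exp ((1 / 4 : ℝ) * (1 / 16) ^ (n + 3 - 1 - i))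
        linarith
    rw [← Real.exp_sum] at h3
    have h4 := cs_fl_geom n
    have h5 : Real.exp (∑ i ∈ range n, (1 / 4 : ℝ) * (1 / 16) ^ (n + 3 - 1 - i)) ≤
        Real.exp (1 / 10000) := Real.exp_le_exp.2 h4
    have h6 : Real.exp (1 / 10000) ≤ 1 + 1 / 1000 := by
      have h7 := Real.add_one_le_exp (-(1 / 10000) : ℝ)
      have h8 : Real.exp (1 / 10000) * Real.exp (-(1 / 10000)) = 1 := by
        rw [← Real.exp_add]; norm_num
      have h9 := Real.exp_pos (1 / 10000)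
      nlinarith
    linarith
  calc YY cs_fl_B0 cs_fl_B (bb 2 (n + 3)) gd n ≤ _ := h1
    _ ≤ W gd (PP cs_fl_B0 cs_fl_B n) * (1 + 1 / 1000) :=
        mul_le_mul_of_nonneg_left h2 (cs_fl_W0 n)
    _ = _ := by ring

private lemma cs_fl_lower (n : ℕ) :
    (1 - 1 / 1000) * W gd (PP cs_fl_B0 cs_fl_B n) ≤
      FF cs_fl_B0 cs_fl_B (bb 2 (n + 3)) gd n := by
  have h3 := FF_lower (bb_even 2 (n + 3)) n (fun i _ => cs_fl_disj i) gd
    (fun p hp => cs_fl_gd0 ((cs_fl_mem n p).1 hp).1.2)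
    (fun p hp => cs_fl_gd1 ((cs_fl_mem n p).1 hp).1.2)
  have h4 := (pointwise (bb_even 2 (n + 3)) n (fun i _ => cs_fl_disj i) gd
    (fun p hp => cs_fl_gd0 ((cs_fl_mem n p).1 hp).1.2)
    (fun p hp => (cs_fl_gd1 ((cs_fl_mem n p).1 hp).1.2).le)).1
  have h5 : ∑ i ∈ range n, E gd (cs_fl_B i) (bb 2 (n + 3) i + 1) / W gd (cs_fl_B i) ≤ 1 / 10000 :=
    (Finset.sum_le_sum fun i _ => cs_fl_ratio n i).trans (cs_fl_geom n)
  have h6 := cs_fl_W0 n
  refine le_trans ?_ h3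
  have h7 : (1 - 1 / 1000) * W gd (PP cs_fl_B0 cs_fl_B n) ≤ W gd (PP cs_fl_B0 cs_fl_B n) *
      (1 - ∑ i ∈ range n, E gd (cs_fl_B i) (bb 2 (n + 3) i + 1) / W gd (cs_fl_B i)) := by
    nlinarith
  refine h7.trans ?_
  apply mul_le_mul_of_nonneg_right h4
  linarith

private lemma cs_fl_weights (n : ℕ) :
    ∑ i ∈ range n, 2 ^ (2 + i) * (2 * (bb 2 (n + 3) i + 1)) ≤ 50 * 2 ^ (2 + n) := by
  induction n with
  | zero => simp
  | succ n ih =>
    rw [Finset.sum_range_succ]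
    have h1 : ∑ i ∈ range n, 2 ^ (2 + i) * (2 * (bb 2 (n + 1 + 3) i + 1))
        = ∑ i ∈ range n, 2 ^ (2 + i) * (2 * (bb 2 (n + 3) i + 1)) + 16 * ∑ i ∈ range n, 2 ^ i := by
      rw [Finset.mul_sum, ← Finset.sum_add_distrib]
      refine Finset.sum_congr rfl fun i hi => ?_
      rw [Finset.mem_range] at hi
      have hb : bb 2 (n + 1 + 3) i = bb 2 (n + 3) i + 2 := by
        unfold bb
        omega
      rw [hb, pow_add]
      ring
    have h2 : ∑ i ∈ range n, 2 ^ i < 2 ^ n := Nat.geomSum_lt (by norm_num) (by simp)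
    have h3 : bb 2 (n + 1 + 3) n = 22 := by
      unfold bb
      omega
    have e1 : 2 ^ (2 + n) = 4 * 2 ^ n := by rw [pow_add]; norm_num
    have e2 : 2 ^ (2 + (n + 1)) = 8 * 2 ^ n := by
      rw [show 2 + (n + 1) = 3 + n by ring, pow_add]; norm_num
    rw [e1] at ih
    rw [h1, h3, e1, e2]
    omega

private lemma cs_fl_supp {n : ℕ} {T : Finset ℕ} (hT : T ⊆ PP cs_fl_B0 cs_fl_B n)
    (hs : Supp cs_fl_B (bb 2 (n + 3)) n T) :
    ∏ p ∈ T, p ≤ (∏ p ∈ small 2, p) * (2 ^ 2 ^ (2 + n)) ^ 50 := by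
  have key : ∀ m ≤ n, ∀ T ⊆ PP cs_fl_B0 cs_fl_B m,
      (∀ i < m, (T ∩ blk (2 + i)).card ≤ bb 2 (n + 3) i + 1) →
      ∏ p ∈ T, p ≤ (∏ p ∈ small 2, p) *
        2 ^ (∑ i ∈ range m, 2 ^ (2 + i) * (2 * (bb 2 (n + 3) i + 1))) := by
    intro m
    induction m with
    | zero =>
      intro _ T hT _
      simp only [Finset.range_zero, Finset.sum_empty, pow_zero, mul_one]
      apply Finset.prod_le_prod_of_subset_of_one_le' (hT.trans (Finset.erase_subset _ _))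
      intro p hp _
      exact (Finset.mem_filter.1 hp).2.one_le
    | succ m ih =>
      intro hm T hT hs
      have e1 : T = (T ∩ PP cs_fl_B0 cs_fl_B m) ∪ (T ∩ blk (2 + m)) := by
        rw [← Finset.inter_union_distrib_left]
        exact (Finset.inter_eq_left.2 hT).symm
      have hdj : Disjoint (T ∩ PP cs_fl_B0 cs_fl_B m) (T ∩ blk (2 + m)) :=
        (cs_fl_disj m).mono Finset.inter_subset_right Finset.inter_subset_right
      have i1 := ih (by omega) (T ∩ PP cs_fl_B0 cs_fl_B m)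
        Finset.inter_subset_right (fun i hi => by
          have := hs i (by omega)
          rwa [Finset.inter_assoc, Finset.inter_eq_right.2
            (show blk (2 + i) ⊆ PP cs_fl_B0 cs_fl_B m from B_sub_PP (B := cs_fl_B) hi)])
      have i2 : ∏ p ∈ T ∩ blk (2 + m), p ≤ 2 ^ (2 ^ (2 + m) * (2 * (bb 2 (n + 3) m + 1))) := by
        calc ∏ p ∈ T ∩ blk (2 + m), p ≤ ∏ p ∈ T ∩ blk (2 + m), 2 ^ (2 ^ (2 + m + 1)) := by
              apply Finset.prod_le_prod'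
              intro p hp
              exact (mem_blk.1 (Finset.mem_inter.1 hp).2).1.2
          _ = (2 ^ (2 ^ (2 + m + 1))) ^ (T ∩ blk (2 + m)).card := by rw [Finset.prod_const]
          _ ≤ (2 ^ (2 ^ (2 + m + 1))) ^ (bb 2 (n + 3) m + 1) :=
              Nat.pow_le_pow_right (by positivity) (hs m (by omega))
          _ = _ := by
              rw [← pow_mul]
              congr 1
              rw [pow_succ]
              ring
      rw [e1, Finset.prod_union hdj, Finset.sum_range_succ, pow_add, ← mul_assoc]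
      exact Nat.mul_le_mul i1 i2
  refine (key n le_rfl T hT hs).trans ?_
  apply Nat.mul_le_mul_left
  rw [← pow_mul]
  apply Nat.pow_le_pow_right (by norm_num)
  have := cs_fl_weights n
  linarith

theorem p_fl : S_fl := by
  refine ⟨((∏ p ∈ small 2, p : ℕ) : ℝ), ?_⟩
  intro m hm
  obtain ⟨n, rfl⟩ : ∃ n, m = 2 + n := ⟨m - 2, by omega⟩
  have hsup : ∀ T ⊆ PP cs_fl_B0 cs_fl_B n, Supp cs_fl_B (bb 2 (n + 3)) n T →
      ∏ p ∈ T, (p : ℝ) ≤ ((∏ p ∈ small 2, p : ℕ) : ℝ) * ((2 : ℝ) ^ 2 ^ (2 + n)) ^ 50 := by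
    intro T hT hs
    have h1 := cs_fl_supp hT hs
    have h2 : ((∏ p ∈ T, p : ℕ) : ℝ) ≤
        (((∏ p ∈ small 2, p) * (2 ^ 2 ^ (2 + n)) ^ 50 : ℕ) : ℝ) := Nat.cast_le.2 h1
    rw [Nat.cast_mul, Nat.cast_prod, Nat.cast_pow, Nat.cast_pow, Nat.cast_ofNat] at h2
    exact h2
  refine ⟨fun ρ => YY cs_fl_B0 cs_fl_B (bb 2 (n + 3)) ρ n,
    fun ρ => FF cs_fl_B0 cs_fl_B (bb 2 (n + 3)) ρ n, ?_, ?_, ?_, ?_, ?_⟩
  · rw [← cs_fl_PP]
    exact (repB_YY n (fun i _ => cs_fl_disj i)).mono hsup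
  · rw [← cs_fl_PP]
    exact (repB_FF n (fun i _ => cs_fl_disj i)).mono hsup
  · rw [← cs_fl_PP]
    intro ρ hρ
    have h := pointwise (bb_even 2 (n + 3)) n (fun i _ => cs_fl_disj i) ρ
      (fun p hp => (hρ p hp).1) (fun p hp => (hρ p hp).2)
    exact ⟨h.2, h.1⟩
  · rw [← cs_fl_PP]
    exact cs_fl_upper n
  · rw [← cs_fl_PP]
    exact cs_fl_lower n

end Pool.Agent.CH.S
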