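import Pool.Agent.Lib.MP_d610d0_nt.CH.S.Stm

set_option autoImplicit false

/-!
[CS ls] The linear sieve: the induction.
-/

namespace Pool.Agent.CH.S

open Finset

theorem p_ls (heps : S_eps) (hstL : S_stL) (hstU3 : S_stU3) (hstU1 : S_stU1) : S_ls := by
  intro u l U L K hSS S hS
  obtain ⟨ε, hSm⟩ := heps u l U L K hSS S hS
  refine ⟨ε, hSm.pos, ?_⟩
  intro a ha hMer
  have ha3 : (3 : ℝ) ≤ (a : ℝ) := by exact_mod_cast ha
  have main : ∀ m : ℕ, ∀ w D : ℝ, ⌈w⌉₊ ≤ m → (a : ℝ) ≤ w → w ≤ D →
      Real.log D ≤ S * Real.log a → UpC u a w D ∧ (w ^ 2 ≤ D → LoC l a w D) := by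
    intro m
    induction m with
    | zero =>
      intro w D hm haw
      have h1 : w ≤ 0 := by
        have := Nat.ceil_le.1 hm
        simpa using this
      linarith
    | succ m ih =>
      intro w D hm haw hwD hlog
      have hsub : ∀ p : ℕ, p.Prime → a ≤ p → ∀ w' : ℝ, w' ≤ w → (p : ℝ) < w' →
          (p : ℝ) ^ 2 ≤ D →
          UpC u a p (D / p) ∧ ((p : ℝ) ^ 2 ≤ D / p → LoC l a p (D / p)) := by
        intro p hp hap w' hw' hpw hp2
        have hp0 : (0 : ℝ) < p := by exact_mod_cast hp.pos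
        have hp1 : (1 : ℝ) ≤ p := by exact_mod_cast hp.one_le
        have hD0 : 0 < D := by linarith
        have h1 : p < ⌈w⌉₊ := Nat.lt_ceil.2 (lt_of_lt_of_le hpw hw')
        refine ih (p : ℝ) (D / p) ?_ (by exact_mod_cast hap) ?_ ?_
        · rw [Nat.ceil_natCast]
          omega
        · rw [le_div_iff₀ hp0]
          nlinarith
        · refine le_trans ?_ hlog
          apply Real.log_le_log (by positivity)
          rw [div_le_iff₀ hp0]
          nlinarith
      have hup : ∀ w' : ℝ, (a : ℝ) ≤ w' → w' ≤ w → w' ^ 3 ≤ D → UpC u a w' D := by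
        intro w' haw' hw' hw3
        refine hstU3 u l U L K hSS S ε hSm a w' D ha hMer haw' hw3 hlog ?_
        intro p hp hap hpw
        have hp0 : (0 : ℝ) < p := by exact_mod_cast hp.pos
        have hp1 : (1 : ℝ) ≤ p := by exact_mod_cast hp.one_le
        have h3 : (p : ℝ) ^ 3 ≤ D :=
          (pow_le_pow_left₀ hp0.le hpw.le 3).trans hw3
        have h2 : (p : ℝ) ^ 2 ≤ D :=
          (pow_le_pow_right₀ hp1 (by norm_num)).trans h3
        refine (hsub p hp hap w' hw' hpw h2).2 ?_
        rw [le_div_iff₀ hp0]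
        calc (p : ℝ) ^ 2 * p = (p : ℝ) ^ 3 := by ring
          _ ≤ D := h3
      constructor
      · rcases le_or_gt (w ^ 3) D with h | h
        · exact hup w haw le_rfl h
        · refine hstU1 u l U L K hSS S ε hSm a w D ha hMer haw hwD h ?_
          intro w' haw' hw' hw3
          exact hup w' haw' hw' hw3.le
      · intro hw2
        refine hstL u l U L K hSS S ε hSm a w D ha hMer haw hw2 hlog ?_
        intro p hp hap hpw
        have hp0 : (0 : ℝ) < p := by exact_mod_cast hp.pos
        exact (hsub p hp hap w le_rfl hpw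
          ((pow_le_pow_left₀ hp0.le hpw.le 2).trans hw2)).1
  intro D w haw hwD hlog
  exact main ⌈w⌉₊ w D le_rfl haw hwD hlog

end Pool.Agent.CH.S
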