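import Pool.Agent.Lib.MP_d610d0_nt.CH.S.Stm
import Pool.Agent.Lib.MP_d610d0_nt.Mert
import Pool.Agent.Lib.MP_d610d0_nt.Mert2

set_option autoImplicit false

namespace Pool.Agent.CH.S

open Finset
open Pool.Agent.Lib.MP_d610d0_nt (Asum Asum_lower Asum_upper Pm mem_Pm)

private theorem cs_mer_Asum_succ (k : ℕ) : Asum (k + 1) = Asum k +
    (if (k + 1).Prime then Real.log ((k + 1 : ℕ) : ℝ) / (((k + 1 : ℕ) : ℝ) - 1) else 0) := by
  unfold Asum
  have h : Pm (k + 1) = if (k + 1).Prime then insert (k + 1) (Pm k) else Pm k := by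
    ext p
    split_ifs with hc
    · rw [Finset.mem_insert, mem_Pm, mem_Pm]
      constructor
      · rintro ⟨h1, h2⟩
        rcases Nat.eq_or_lt_of_le h1 with h4 | h4
        · left; exact h4
        · right; exact ⟨by omega, h2⟩
      · rintro (h4 | ⟨h1, h2⟩)
        · subst h4; exact ⟨le_rfl, hc⟩
        · exact ⟨by omega, h2⟩
    · rw [mem_Pm, mem_Pm]
      constructor
      · rintro ⟨h1, h2⟩
        rcases Nat.eq_or_lt_of_le h1 with h4 | h4
        · subst h4; exact absurd h2 hc
        · exact ⟨by omega, h2⟩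
      · rintro ⟨h1, h2⟩
        exact ⟨by omega, h2⟩
  rw [h]
  split_ifs with hc
  · rw [Finset.sum_insert, add_comm]
    intro hm
    have := (mem_Pm.mp hm).1
    omega
  · ring

private theorem cs_mer_Pr_self (n : ℕ) : Pr n n = ∅ := by
  unfold Pr
  ext p
  simp only [mem_filter, mem_range, notMem_empty, iff_false]
  rintro ⟨h1, -, h2⟩
  omega

private theorem cs_mer_Pr_succ (n k : ℕ) (h : n ≤ k) :
    Pr n (k + 1) = if k.Prime then insert k (Pr n k) else Pr n k := by
  unfold Pr
  ext p
  split_ifs with hc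
  · simp only [mem_filter, mem_range, mem_insert]
    constructor
    · rintro ⟨h1, h2, h3⟩
      rcases Nat.lt_succ_iff_lt_or_eq.1 h1 with h4 | h4
      · right; exact ⟨h4, h2, h3⟩
      · left; exact h4
    · rintro (h4 | ⟨h1, h2, h3⟩)
      · subst h4; exact ⟨by omega, hc, h⟩
      · exact ⟨by omega, h2, h3⟩
  · simp only [mem_filter, mem_range]
    constructor
    · rintro ⟨h1, h2, h3⟩
      rcases Nat.lt_succ_iff_lt_or_eq.1 h1 with h4 | h4
      · exact ⟨h4, h2, h3⟩
      · subst h4; exact absurd h2 hc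
    · rintro ⟨h1, h2, h3⟩
      exact ⟨by omega, h2, h3⟩

private theorem cs_mer_not_mem (n k : ℕ) : k ∉ Pr n k := by
  unfold Pr
  simp

/-- the sum of `gd` -/
private theorem cs_mer_S (n : ℕ) (hn : 4000 ≤ n) (k : ℕ) (hk : n ≤ k) :
    ∑ p ∈ Pr (n + 1) (k + 1), gd p + (1 - (Asum k - Real.log k)) / Real.log k ≤
      Real.log (Real.log k) - Real.log (Real.log n) + 2 / Real.log n := by
  induction k, hk using Nat.le_induction with
  | base =>
    have hln : 0 < Real.log n := Real.log_pos (by exact_mod_cast (by omega : 1 < n))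
    rw [cs_mer_Pr_self, sum_empty, zero_add, sub_self, zero_add]
    apply div_le_div_of_nonneg_right _ hln.le
    have h1 := Asum_lower n
    have h2 : Real.log n ≤ Real.log ((n : ℝ) + 1) := by
      apply Real.log_le_log
      · exact_mod_cast (by omega : 0 < n)
      · linarith
    linarith
  | succ k hk ih =>
    have hk0 : (0 : ℝ) < k := by exact_mod_cast (by omega : 0 < k)
    have hlk : 0 < Real.log k := Real.log_pos (by exact_mod_cast (by omega : 1 < k))
    have hlk1 : 0 < Real.log ((k + 1 : ℕ) : ℝ) :=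
      Real.log_pos (by exact_mod_cast (by omega : 1 < k + 1))
    have hlkk : Real.log k ≤ Real.log ((k + 1 : ℕ) : ℝ) := by
      apply Real.log_le_log hk0
      push_cast; linarith
    have hE : 0 ≤ 1 - (Asum k - Real.log k) := by
      have := Asum_upper (m := k) (by omega)
      linarith
    -- the increment
    have hS : ∑ p ∈ Pr (n + 1) (k + 1 + 1), gd p = ∑ p ∈ Pr (n + 1) (k + 1), gd p +
        (Asum (k + 1) - Asum k) / Real.log ((k + 1 : ℕ) : ℝ) := by
      rw [cs_mer_Pr_succ (n + 1) (k + 1) (by omega), cs_mer_Asum_succ]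
      split_ifs with hc
      · rw [sum_insert (cs_mer_not_mem _ _)]
        unfold gd
        have : ((k + 1 : ℕ) : ℝ) - 1 ≠ 0 := by
          push_cast
          have := hk0.ne'
          simpa using this
        field_simp
        ring
      · simp
    rw [hS]
    have h1 : (1 - (Asum k - Real.log k)) / Real.log ((k + 1 : ℕ) : ℝ) ≤
        (1 - (Asum k - Real.log k)) / Real.log k :=
      div_le_div_of_nonneg_left hE hlk hlkk
    have h2 : (Asum (k + 1) - Asum k) / Real.log ((k + 1 : ℕ) : ℝ) +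
        (1 - (Asum (k + 1) - Real.log ((k + 1 : ℕ) : ℝ))) / Real.log ((k + 1 : ℕ) : ℝ) =
        (1 - (Asum k - Real.log k)) / Real.log ((k + 1 : ℕ) : ℝ) +
          (1 - Real.log k / Real.log ((k + 1 : ℕ) : ℝ)) := by
      field_simp
      ring
    have h3 : 1 - Real.log k / Real.log ((k + 1 : ℕ) : ℝ) ≤
        Real.log (Real.log ((k + 1 : ℕ) : ℝ)) - Real.log (Real.log k) := by
      have h4 := Real.log_le_sub_one_of_pos (div_pos hlk hlk1)
      rw [Real.log_div hlk.ne' hlk1.ne'] at h4
      linarith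
    linarith

/-- the product -/
private theorem cs_mer_V (n : ℕ) (hn : 3 ≤ n) (k : ℕ) (hk : n ≤ k) :
    0 < V (n + 1) (k + 1) ∧ -Real.log (V (n + 1) (k + 1)) ≤
      ∑ p ∈ Pr (n + 1) (k + 1), gd p + (1 / ((n : ℝ) - 1) - 1 / ((k : ℝ) - 1)) := by
  induction k, hk using Nat.le_induction with
  | base =>
    unfold V
    rw [cs_mer_Pr_self, sum_empty, prod_empty]
    simp
  | succ k hk ih =>
    have hk3 : (3 : ℝ) ≤ k := by exact_mod_cast (by omega : 3 ≤ k)
    obtain ⟨ih1, ih2⟩ := ih
    unfold V at ih1 ih2 ⊢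
    rw [cs_mer_Pr_succ (n + 1) (k + 1) (by omega)]
    have hd : 1 / ((k : ℝ) - 1) - 1 / (((k + 1 : ℕ) : ℝ) - 1) =
        1 / ((k : ℝ) - 1) - 1 / k := by
      push_cast
      rw [add_sub_cancel_right]
    have hd0 : 1 / (k : ℝ) ≤ 1 / ((k : ℝ) - 1) :=
      one_div_le_one_div_of_le (by linarith) (by linarith)
    split_ifs with hc
    · rw [sum_insert (cs_mer_not_mem _ _), prod_insert (cs_mer_not_mem _ _)]
      have hg : 1 - gd (k + 1) = ((k : ℝ) - 1) / k := by
        unfold gd
        push_cast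
        rw [add_sub_cancel_right]
        field_simp
      have hgp : 0 < 1 - gd (k + 1) := by
        rw [hg]; exact div_pos (by linarith) (by linarith)
      have hgv : gd (k + 1) = 1 / (k : ℝ) := by
        unfold gd
        push_cast
        rw [add_sub_cancel_right]
      refine ⟨mul_pos hgp ih1, ?_⟩
      rw [Real.log_mul hgp.ne' ih1.ne']
      have h1 : -Real.log (1 - gd (k + 1)) ≤ 1 / ((k : ℝ) - 1) := by
        rw [← Real.log_inv, hg, inv_div]
        have h2 := Real.log_le_sub_one_of_pos (x := (k : ℝ) / ((k : ℝ) - 1))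
          (div_pos (by linarith) (by linarith))
        have h3 : (k : ℝ) / ((k : ℝ) - 1) - 1 = 1 / ((k : ℝ) - 1) := by
          have : (k : ℝ) - 1 ≠ 0 := by linarith
          field_simp
          ring
        linarith
      linarith
    · refine ⟨ih1, ?_⟩
      linarith

theorem p_mer : S_mer := by
  intro ε hε
  have hη : 0 < Real.log (1 + ε) := Real.log_pos (by linarith)
  set η := Real.log (1 + ε) with hηd
  refine ⟨4002 + (⌈Real.exp (6 / η)⌉₊ + ⌈2 / η⌉₊), by omega, ?_⟩
  intro a ha n hn w hw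
  -- `n = n' + 1`
  obtain ⟨n', rfl⟩ : ∃ n', n = n' + 1 := ⟨n - 1, by omega⟩
  have hn1 : 4000 ≤ n' := by omega
  have hn'R : (4000 : ℝ) ≤ n' := by exact_mod_cast hn1
  have hln' : 0 < Real.log n' := Real.log_pos (by linarith)
  have hn0 : (0 : ℝ) < ((n' + 1 : ℕ) : ℝ) := by push_cast; linarith
  have hw1 : 1 < w := by
    have h1 : ((n' + 1 : ℕ) : ℝ) ≤ w := hw
    push_cast at h1
    linarith
  have hlw : 0 < Real.log w := Real.log_pos hw1
  set m := ⌈w⌉₊ with hm
  have hnm : n' + 1 ≤ m := by
    have : ((n' + 1 : ℕ) : ℝ) ≤ (m : ℝ) := le_trans hw (Nat.le_ceil w)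
    exact_mod_cast this
  have hlnw : Real.log ((n' + 1 : ℕ) : ℝ) ≤ Real.log w := Real.log_le_log hn0 hw
  obtain ⟨k, hk⟩ : ∃ k, m = k + 1 := ⟨m - 1, by omega⟩
  have hkn : n' ≤ k := by omega
  rw [hk]
  rcases hkn.eq_or_lt with h | h
  · rw [← h]
    unfold V
    rw [cs_mer_Pr_self, prod_empty, mul_one]
    nlinarith
  · -- `k ≥ n' + 1`
    have hkw : (k : ℝ) < w := Nat.lt_ceil.1 (by omega)
    have hk1 : (1 : ℝ) < k := by
      have : (n' : ℝ) < k := by exact_mod_cast h
      linarith
    have hlk : 0 < Real.log k := Real.log_pos hk1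
    have hS := cs_mer_S n' hn1 k hkn
    obtain ⟨hV0, hV⟩ := cs_mer_V n' (by omega) k hkn
    have hE : 0 ≤ (1 - (Asum k - Real.log k)) / Real.log k := by
      apply div_nonneg _ hlk.le
      have := Asum_upper (m := k) (by omega)
      linarith
    have hllw : Real.log (Real.log k) ≤ Real.log (Real.log w) :=
      Real.log_le_log hlk (Real.log_le_log (by linarith) hkw.le)
    have h1k : 0 ≤ 1 / ((k : ℝ) - 1) := div_nonneg zero_le_one (by linarith)
    have h1 : -Real.log (V (n' + 1) (k + 1)) ≤ Real.log (Real.log w) - Real.log (Real.log n') +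
        2 / Real.log n' + 1 / ((n' : ℝ) - 1) := by linarith
    -- the error is small
    have he1 : 3 / Real.log n' ≤ η / 2 := by
      have h2 : Real.exp (6 / η) ≤ n' := by
        have h3 := Nat.le_ceil (Real.exp (6 / η))
        have h4 : (⌈Real.exp (6 / η)⌉₊ : ℝ) ≤ n' := by exact_mod_cast (by omega)
        linarith
      have h3 : 6 / η ≤ Real.log n' := by
        rw [Real.le_log_iff_exp_le (by linarith)]; exact h2
      rw [div_le_iff₀ hη] at h3
      rw [div_le_iff₀ hln']
      linarith
    have he2 : 1 / ((n' : ℝ) - 1) ≤ η / 2 := by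
      have h2 : 2 / η ≤ (n' : ℝ) - 1 := by
        have h3 := Nat.le_ceil (2 / η)
        have h4 : (⌈2 / η⌉₊ : ℝ) + 1 ≤ n' := by exact_mod_cast (by omega)
        linarith
      rw [div_le_iff₀ hη] at h2
      rw [div_le_iff₀ (by linarith)]
      linarith
    -- `log (log n) - log (log n') ≤ 1 / log n'`
    have hll : Real.log (Real.log ((n' + 1 : ℕ) : ℝ)) - Real.log (Real.log n') ≤
        1 / Real.log n' := by
      have hln : 0 < Real.log ((n' + 1 : ℕ) : ℝ) :=
        Real.log_pos (by push_cast; linarith)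
      rw [← Real.log_div hln.ne' hln'.ne']
      have h3 := Real.log_le_sub_one_of_pos (div_pos hln hln')
      refine le_trans h3 ?_
      have h4 : Real.log ((n' + 1 : ℕ) : ℝ) ≤ Real.log n' + 1 := by
        have h5 := Real.log_le_sub_one_of_pos (x := ((n' + 1 : ℕ) : ℝ) / n')
          (div_pos hn0 (by linarith))
        rw [Real.log_div hn0.ne' (by linarith)] at h5
        have h6 : ((n' + 1 : ℕ) : ℝ) / n' - 1 ≤ 1 := by
          push_cast
          rw [sub_le_iff_le_add, div_le_iff₀ (by linarith)]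
          linarith
        linarith
      rw [div_sub_one hln'.ne']
      apply div_le_div_of_nonneg_right _ hln'.le
      linarith
    have h5 : Real.log (Real.log ((n' + 1 : ℕ) : ℝ)) ≤
        η + Real.log (V (n' + 1) (k + 1)) + Real.log (Real.log w) := by
      have h6 : 3 / Real.log n' = 2 / Real.log n' + 1 / Real.log n' := by
        rw [← add_div]; norm_num
      linarith
    have hln : 0 < Real.log ((n' + 1 : ℕ) : ℝ) := Real.log_pos (by push_cast; linarith)
    rw [hηd, ← Real.log_mul (by linarith) hV0.ne', ← Real.log_mul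
      (mul_pos (by linarith) hV0).ne' hlw.ne'] at h5
    exact (Real.log_le_log_iff hln (mul_pos (mul_pos (by linarith) hV0) hlw)).1 h5

end Pool.Agent.CH.S
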