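import Pool.Agent.Lib.MP_d610d0_nt.CH.S.Stm

set_option autoImplicit false

/-!
Section S, piece par: choice of the parameters.
-/

namespace Pool.Agent.CH.S

open Finset

private theorem cs_par_find (y : ℝ) (hy : 16 ≤ y) : ∃ m : ℕ, 2 ≤ m ∧ (2 : ℝ) ^ 2 ^ m ≤ y ∧
    y < ((2 : ℝ) ^ 2 ^ m) ^ 2 := by
  classical
  have hex : ∃ k : ℕ, y < (2 : ℝ) ^ 2 ^ k := by
    obtain ⟨n, hn⟩ := pow_unbounded_of_one_lt y (one_lt_two)
    exact ⟨n, lt_of_lt_of_le hn (pow_le_pow_right₀ one_le_two Nat.lt_two_pow_self.le)⟩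
  have hk := Nat.find_spec hex
  have h3 : 3 ≤ Nat.find hex := by
    by_contra h
    have h' : Nat.find hex ≤ 2 := by omega
    have h1 : (2 : ℝ) ^ 2 ^ (Nat.find hex) ≤ (2 : ℝ) ^ 2 ^ 2 :=
      pow_le_pow_right₀ one_le_two (Nat.pow_le_pow_right (by norm_num) h')
    have h2 : (2 : ℝ) ^ 2 ^ 2 = 16 := by norm_num
    linarith
  refine ⟨Nat.find hex - 1, by omega, ?_, ?_⟩
  · have := Nat.find_min hex (m := Nat.find hex - 1) (by omega)
    exact not_lt.1 this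
  · rw [← pow_mul, ← pow_succ]
    rw [Nat.sub_add_cancel (by omega)]
    exact hk

theorem p_par : S_par := by
  intro C0 a0
  have hy : Filter.Tendsto (fun J : ℕ => (J : ℝ) ^ (1 / 102000 : ℝ)) Filter.atTop Filter.atTop :=
    (tendsto_rpow_atTop (by norm_num)).comp tendsto_natCast_atTop_atTop
  have hl : Filter.Tendsto (fun J : ℕ => Real.log (J : ℝ)) Filter.atTop Filter.atTop :=
    Real.tendsto_log_atTop.comp tendsto_natCast_atTop_atTop
  obtain ⟨J0, h0⟩ := Filter.eventually_atTop.1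
    (((hy.eventually_ge_atTop (16 + (a0 : ℝ) ^ 2 + C0 ^ 2)).and
      (hl.eventually_ge_atTop (1000 * Real.log 3))).and (Filter.eventually_ge_atTop 1))
  refine ⟨J0, fun J hJ => ?_⟩
  obtain ⟨⟨h1, h2⟩, h3⟩ := h0 J hJ
  have hJ1 : (1 : ℝ) ≤ J := by exact_mod_cast h3
  have hJ0 : (0 : ℝ) < J := by linarith
  have hlog3 : 1 < Real.log 3 := by
    rw [Real.lt_log_iff_exp_lt (by norm_num)]
    exact lt_trans Real.exp_one_lt_d9 (by norm_num)
  have hL : 1000 < Real.log J := by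
    have h2' : 1000 * Real.log 3 ≤ Real.log J := h2
    linarith
  have hJgt : (1 : ℝ) < J := by
    by_contra h
    have : (J : ℝ) = 1 := le_antisymm (not_lt.1 h) hJ1
    rw [this, Real.log_one] at hL
    linarith
  have h2' : 1000 * Real.log 3 ≤ Real.log J := h2
  have h1' : 16 + (a0 : ℝ) ^ 2 + C0 ^ 2 ≤ (J : ℝ) ^ (1 / 102000 : ℝ) := h1
  set y : ℝ := (J : ℝ) ^ (1 / 102000 : ℝ) with hydef
  have hy16 : 16 ≤ y := by nlinarith [sq_nonneg (a0 : ℝ), sq_nonneg C0]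
  obtain ⟨m, hm2, hmy, hym⟩ := cs_par_find y hy16
  have hX1 : (1 : ℝ) ≤ (2 : ℝ) ^ 2 ^ m := one_le_pow₀ one_le_two
  have hcast : ((2 ^ 2 ^ m + 1 : ℕ) : ℝ) = (2 : ℝ) ^ 2 ^ m + 1 := by push_cast; rfl
  have hlogy : Real.log y = 1 / 102000 * Real.log J := by
    rw [hydef, Real.log_rpow hJ0]
  have hzJ : zJ J = Real.exp (3 / 8 * (Real.log 3 + Real.log J)) := by
    unfold zJ
    rw [Real.rpow_def_of_pos (by positivity), Real.log_mul (by norm_num) hJ0.ne', mul_comm]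
  have hD : (J : ℝ) ^ (0.9985 : ℝ) = Real.exp (0.9985 * Real.log J) := by
    rw [Real.rpow_def_of_pos hJ0, mul_comm]
  have hzpos : 0 < zJ J := by rw [hzJ]; exact Real.exp_pos _
  have hz1 : 1 ≤ zJ J := by
    rw [hzJ]
    apply Real.one_le_exp
    nlinarith
  have hlogz : Real.log (zJ J) = 3 / 8 * (Real.log 3 + Real.log J) := by
    rw [hzJ, Real.log_exp]
  have hz2 : zJ J ^ 2 ≤ (J : ℝ) ^ (0.9985 : ℝ) := by
    rw [hzJ, hD, ← Real.exp_nat_mul]
    apply Real.exp_le_exp.2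
    push_cast
    nlinarith
  have hlogD : Real.log ((J : ℝ) ^ (0.9985 : ℝ)) = 0.9985 * Real.log J := by
    rw [Real.log_rpow hJ0]
  generalize hX : (2 : ℝ) ^ 2 ^ m = X at hmy hym hX1 hcast
  have hXpos : 0 < X := by linarith
  refine ⟨m, hm2, ?_, ?_, ?_, hz2, ?_, ?_, ?_, ?_, ?_, ?_⟩
  · have h4 : (a0 : ℝ) ^ 2 < X ^ 2 := by nlinarith [sq_nonneg C0]
    have h5 : (a0 : ℝ) < X := lt_of_pow_lt_pow_left₀ 2 hXpos.le h4
    have h6 : (a0 : ℝ) ≤ ((2 ^ 2 ^ m + 1 : ℕ) : ℝ) := by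
      rw [hcast]
      linarith
    exact_mod_cast h6
  · have h4 : C0 ^ 2 < X ^ 2 := by nlinarith [sq_nonneg (a0 : ℝ)]
    have h5 : C0 ≤ X := (le_abs_self C0).trans (abs_lt_of_sq_lt_sq h4 hXpos.le).le
    have h6 : C0 * X ^ 50 ≤ X * X ^ 50 := mul_le_mul_of_nonneg_right h5 (by positivity)
    have h7 : X * X ^ 50 = X ^ 51 := by ring
    have h8 : X ^ 51 ≤ y ^ 51 := pow_le_pow_left₀ hXpos.le hmy 51
    have h9 : y ^ 51 = (J : ℝ) ^ (0.0005 : ℝ) := by
      rw [hydef, ← Real.rpow_natCast, ← Real.rpow_mul hJ0.le]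
      norm_num
    rw [← h9, hX]
    linarith
  · rw [hcast]
    have h4 : X + 1 ≤ y ^ 2 := by nlinarith
    have h5 : y ^ 2 = Real.exp (2 * (1 / 102000 * Real.log J)) := by
      rw [← hlogy, two_mul, Real.exp_add, Real.exp_log (by linarith)]
      ring
    rw [hzJ]
    refine le_trans h4 ?_
    rw [h5]
    apply Real.exp_le_exp.2
    nlinarith
  · nlinarith
  · exact Real.one_lt_rpow hJgt (by norm_num)
  · rw [hlogD, hcast]
    have h4 : Real.log y ≤ 2 * Real.log X := by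
      have h5 : Real.log y ≤ Real.log (X ^ 2) := Real.log_le_log (by linarith) hym.le
      rw [Real.log_pow] at h5
      exact_mod_cast h5
    have h6 : Real.log X ≤ Real.log (X + 1) := Real.log_le_log hXpos (by linarith)
    rw [hlogy] at h4
    linarith
  · rw [hlogD, hlogz, le_div_iff₀ (by linarith)]
    nlinarith
  · rw [← Real.rpow_add hJ0]
    norm_num
  · calc (J : ℝ) ^ (999 / 1000 : ℝ) ≤ (J : ℝ) ^ (1 : ℝ) :=
          Real.rpow_le_rpow_of_exponent_le hJ1 (by norm_num)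
      _ = J := Real.rpow_one _

end Pool.Agent.CH.S
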