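import Pool.Agent.Lib.MP_d610d0_nt.CH.S.Stm

set_option autoImplicit false

namespace Pool.Agent.CH.S

open Finset

private theorem cs_ps_Pr (a m : ℕ) (G : ℕ → ℝ) :
    ∑ p ∈ Pr a m, G p = ∑ n ∈ Ico a m, (if n.Prime ∧ a ≤ n then G n else 0) := by
  rw [← Finset.sum_filter]
  apply Finset.sum_congr _ (fun _ _ => rfl)
  ext n
  unfold Pr
  simp only [mem_filter, mem_range, mem_Ico]
  constructor
  · rintro ⟨h1, h2, h3⟩
    exact ⟨⟨h3, h1⟩, h2, h3⟩
  · rintro ⟨⟨h3, h1⟩, h2, -⟩
    exact ⟨h1, h2, h3⟩

private theorem cs_ps_tele (a m : ℕ) (ham : a ≤ m) (G : ℕ → ℝ) :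
    ∑ n ∈ Ico a m, (G (n + 1) - G n) = G m - G a := by
  rw [Finset.sum_Ico_sub G ham]

theorem p_ps (habel : S_abel) (htel : S_tel) : S_ps := by
  intro a w D ε φ I ha haw hwD hε hMer hanti hnn hint hInn
  have ha3 : (3 : ℝ) ≤ a := by exact_mod_cast ha
  have hw3 : (3 : ℝ) ≤ w := le_trans ha3 haw
  have hw0 : 0 < w := by linarith
  have hlw : 0 < Real.log w := Real.log_pos (by linarith)
  have hlD : Real.log w ≤ Real.log D := Real.log_le_log hw0 hwD
  have hlD0 : 0 < Real.log D := by linarith
  obtain ⟨hV, hVmul, hVst, -, -⟩ := htel a ha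
  set m := ⌈w⌉₊ with hm
  set s := Real.log D / Real.log w with hs
  have hs1 : 1 ≤ s := by
    rw [hs, le_div_iff₀ hlw]; linarith
  have hs0 : 0 < s := by linarith
  have ham : a ≤ m := by
    have : (a : ℝ) ≤ (m : ℝ) := le_trans haw (Nat.le_ceil w)
    exact_mod_cast this
  have hVm : 0 < V a m := (hV m).1
  -- logs
  have hlog : ∀ n : ℕ, a ≤ n → 0 < Real.log n := by
    intro n hn
    apply Real.log_pos
    have : (a : ℝ) ≤ n := by exact_mod_cast hn
    linarith
  have hlt : ∀ n : ℕ, n < m → (n : ℝ) < w := fun n hn => Nat.lt_ceil.1 hn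
  have hts : ∀ n : ℕ, a ≤ n → n < m → s ≤ Real.log D / Real.log n := by
    intro n hn hnm
    rw [hs]
    apply div_le_div_of_nonneg_left hlD0.le (hlog n hn)
    apply Real.log_le_log _ (hlt n hnm).le
    have : (a : ℝ) ≤ n := by exact_mod_cast hn
    linarith
  have htt : ∀ n : ℕ, a ≤ n → Real.log D / Real.log ((n + 1 : ℕ) : ℝ) ≤ Real.log D / Real.log n := by
    intro n hn
    apply div_le_div_of_nonneg_left hlD0.le (hlog n hn)
    apply Real.log_le_log
    · have : (a : ℝ) ≤ n := by exact_mod_cast hn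
      linarith
    · push_cast; linarith
  let T : ℕ → ℝ := fun n => if n < m then Real.log D / Real.log n else s
  have hT1 : ∀ n, n < m → T n = Real.log D / Real.log n := fun n hn => if_pos hn
  have hTm : T m = s := if_neg (lt_irrefl m)
  have hTs : ∀ n, a ≤ n → s ≤ T n := by
    intro n hn
    by_cases h : n < m
    · rw [hT1 n h]; exact hts n hn h
    · exact (if_neg h : T n = s).ge
  have hTT : ∀ n, a ≤ n → n < m → T (n + 1) ≤ T n := by
    intro n hn hnm
    by_cases h : n + 1 < m
    · rw [hT1 n hnm, hT1 (n + 1) h]; exact htt n hn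
    · have h' : T (n + 1) = s := if_neg h
      rw [h']; exact hTs n hn
  let Us : ℕ → ℝ := fun n => (1 + ε) * V a m * (1 / s) * T n
  have hVU : ∀ n, a ≤ n → n ≤ m → V a n ≤ Us n := by
    intro n hn hnm
    show V a n ≤ (1 + ε) * V a m * (1 / s) * T n
    rcases hnm.lt_or_eq with h | h
    · rw [hT1 n h, hVmul n m hn hnm]
      have hM := hMer n hn w (hlt n h).le
      rw [← hm] at hM
      have e1 : (1 + ε) * (V a n * V n m) * (1 / s) * (Real.log D / Real.log n) =
          V a n * ((1 + ε) * V n m * Real.log w / Real.log n) := by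
        rw [hs]
        have := (hlog n hn).ne'
        field_simp
      rw [e1]
      apply le_mul_of_one_le_right (hV n).1.le
      rw [le_div_iff₀ (hlog n hn), one_mul]
      exact hM
    · rw [h, hTm]
      have e1 : (1 + ε) * V a m * (1 / s) * s = (1 + ε) * V a m := by field_simp
      rw [e1]
      nlinarith
  let f : ℕ → ℝ := fun n => φ (Real.log D / Real.log n - 1)
  have hF0 : 0 ≤ φ (s - 1) := hnn _ le_rfl
  have hab := habel a m (V a) Us f (φ (s - 1)) ham hVU
    (by
      intro n hn hnm
      show φ (Real.log D / Real.log n - 1) ≤ φ (Real.log D / Real.log ((n + 1 : ℕ) : ℝ) - 1)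
      apply hanti
      · have := hts (n + 1) (by omega) hnm
        linarith
      · have := htt n hn
        linarith)
    (by
      intro n hn hnm
      apply hnn
      have := hts n hn hnm
      linarith)
    (by
      intro n hn hnm
      apply hanti _ _ le_rfl
      have := hts n hn hnm
      linarith) hF0
  -- the left side
  have hL : ∑ p ∈ Pr a m, gd p * V a p * φ (Real.log D / Real.log p - 1) =
      ∑ n ∈ Ico a m, (V a n - V a (n + 1)) * f n := by
    rw [cs_ps_Pr a m (fun p => gd p * V a p * φ (Real.log D / Real.log p - 1))]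
    apply Finset.sum_congr rfl
    intro n _
    rw [hVst n]
    show _ = (V a n - (V a n - (if n.Prime ∧ a ≤ n then gd n * V a n else 0))) *
      φ (Real.log D / Real.log n - 1)
    split_ifs
    · ring
    · ring
  rw [hL]
  refine le_trans hab ?_
  have hR : ∑ n ∈ Ico a m, (Us n - Us (n + 1)) * f n ≤ (1 + ε) * V a m * (1 / s) * I (s - 1) := by
    have hc : 0 ≤ (1 + ε) * V a m * (1 / s) := by positivity
    have h1 : ∑ n ∈ Ico a m, (Us n - Us (n + 1)) * f n ≤
        ∑ n ∈ Ico a m, (1 + ε) * V a m * (1 / s) * (I (T (n + 1) - 1) - I (T n - 1)) := by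
      apply Finset.sum_le_sum
      intro n hn
      rw [mem_Ico] at hn
      have e1 : (Us n - Us (n + 1)) * f n =
          (1 + ε) * V a m * (1 / s) * (((T n - 1) - (T (n + 1) - 1)) * φ (T n - 1)) := by
        show ((1 + ε) * V a m * (1 / s) * T n - (1 + ε) * V a m * (1 / s) * T (n + 1)) *
          φ (Real.log D / Real.log n - 1) = _
        rw [← hT1 n hn.2]
        ring
      rw [e1]
      apply mul_le_mul_of_nonneg_left _ hc
      apply hint
      · have := hTs (n + 1) (by omega)
        linarith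
      · have := hTT n hn.1 hn.2
        linarith
    refine le_trans h1 ?_
    rw [← Finset.mul_sum, cs_ps_tele a m ham (fun n => I (T n - 1))]
    apply mul_le_mul_of_nonneg_left _ hc
    show I (T m - 1) - I (T a - 1) ≤ I (s - 1)
    rw [hTm]
    have := hInn (T a - 1) (by have := hTs a le_rfl; linarith)
    linarith
  have hU : Us m - V a m = ε * V a m := by
    show (1 + ε) * V a m * (1 / s) * T m - V a m = _
    rw [hTm]
    field_simp
    ring
  rw [hU]
  calc _ ≤ (1 + ε) * V a m * (1 / s) * I (s - 1) + ε * V a m * φ (s - 1) := by linarith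
    _ = _ := by ring

end Pool.Agent.CH.S
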