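import Pool.Agent.Lib.MP_d610d0_nt.CH.S.Stm

set_option autoImplicit false

/-!
Chen type theorem, section S, piece [CS pt]: pointwise sieve inequalities.
-/

namespace Pool.Agent.CH.S

open Finset

private lemma cs_pt_Pr_pos {a w : ℕ} (h : w.Prime ∧ a ≤ w) : Pr a (w + 1) = insert w (Pr a w) := by
  unfold Pr
  rw [range_add_one, filter_insert, if_pos h]

private lemma cs_pt_Pr_neg {a w : ℕ} (h : ¬ (w.Prime ∧ a ≤ w)) : Pr a (w + 1) = Pr a w := by
  unfold Pr
  rw [range_add_one, filter_insert, if_neg h]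

private lemma cs_pt_notMem (a w : ℕ) : w ∉ Pr a w := by
  unfold Pr
  simp

open Classical in
private lemma cs_pt_succ (a : ℕ) (ρ : ℕ → ℝ) (w : ℕ) (b : Bool) (D : ℝ) :
    th a ρ (w + 1) b D = th a ρ w b D -
      (if w.Prime ∧ a ≤ w ∧ (b = true → (w : ℝ) ^ 3 < D) then ρ w * th a ρ w (!b) (D / w)
        else 0) := rfl

theorem p_pt : S_pt := by
  intro a ρ w
  induction w with
  | zero =>
    intro D _
    have h0 : Pr a 0 = ∅ := by unfold Pr; simp
    rw [h0]
    simp [th]
  | succ w ih =>
    intro D hρ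
    by_cases hw : w.Prime ∧ a ≤ w
    · rw [cs_pt_Pr_pos hw] at hρ ⊢
      rw [prod_insert (cs_pt_notMem a w)]
      have hρ' : ∀ p ∈ Pr a w, 0 ≤ ρ p ∧ ρ p ≤ 1 := fun p hp => hρ p (mem_insert_of_mem hp)
      have hρw := hρ w (mem_insert_self _ _)
      have hW : 0 ≤ ∏ p ∈ Pr a w, (1 - ρ p) :=
        prod_nonneg fun p hp => by have := hρ' p hp; linarith
      have i1 := ih D hρ'
      have i2 := ih (D / w) hρ'
      constructor
      · have e : th a ρ (w + 1) false D = th a ρ w false D - ρ w * th a ρ w true (D / w) := by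
          rw [cs_pt_succ, if_pos ⟨hw.1, hw.2, fun h => absurd h (by decide)⟩]
          rfl
        rw [e]
        have := mul_le_mul_of_nonneg_left i2.2 hρw.1
        linarith [i1.1]
      · by_cases hD : (w : ℝ) ^ 3 < D
        · have e : th a ρ (w + 1) true D = th a ρ w true D - ρ w * th a ρ w false (D / w) := by
            rw [cs_pt_succ, if_pos ⟨hw.1, hw.2, fun _ => hD⟩]
            rfl
          rw [e]
          have := mul_le_mul_of_nonneg_left i2.1 hρw.1
          linarith [i1.2]
        · have e : th a ρ (w + 1) true D = th a ρ w true D := by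
            rw [cs_pt_succ, if_neg (fun h => hD (h.2.2 rfl)), sub_zero]
          rw [e]
          have := mul_nonneg hρw.1 hW
          linarith [i1.2]
    · rw [cs_pt_Pr_neg hw] at hρ ⊢
      have e : ∀ b, th a ρ (w + 1) b D = th a ρ w b D := fun b => by
        rw [cs_pt_succ, if_neg (fun h => hw ⟨h.1, h.2.1⟩), sub_zero]
      rw [e, e]
      exact ih D hρ

end Pool.Agent.CH.S
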