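import Pool.Agent.Lib.MP_d610d0_nt.CH.S.Stm

set_option autoImplicit false

/-!
# [CS rep] The sieve functions are combinations of products
-/

namespace Pool.Agent.CH.S

open Finset
open Pool.Agent.BVall (RepB)

private theorem cs_rep_Pr_succ {a w : ℕ} (h : w.Prime ∧ a ≤ w) :
    Pr a (w + 1) = insert w (Pr a w) := by
  unfold Pr
  rw [Finset.range_add_one, Finset.filter_insert, if_pos h]

private theorem cs_rep_Pr_sub (a w : ℕ) : Pr a w ⊆ Pr a (w + 1) := by
  intro p hp
  unfold Pr at hp ⊢
  rw [Finset.mem_filter, Finset.mem_range] at hp ⊢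
  exact ⟨by omega, hp.2⟩

private theorem cs_rep_notMem (a w : ℕ) : w ∉ Pr a w := by
  unfold Pr
  intro h
  rw [Finset.mem_filter, Finset.mem_range] at h
  omega

/-- extension by zero -/
private theorem cs_rep_ext {P P' : Finset ℕ} (hP : P ⊆ P') {Q : Finset ℕ → Prop}
    {F : (ℕ → ℝ) → ℝ} (h : RepB P Q F) : RepB P' Q F := by
  classical
  obtain ⟨c, h1, h2, h3⟩ := h
  refine ⟨fun T => if T ⊆ P then c T else 0, ?_, ?_, ?_⟩
  · intro ρ
    rw [h1 ρ]
    have e : ∀ T ∈ P.powerset, c T * ∏ p ∈ T, ρ p
        = (if T ⊆ P then c T else 0) * ∏ p ∈ T, ρ p := by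
      intro T hT
      rw [if_pos (Finset.mem_powerset.1 hT)]
    rw [Finset.sum_congr rfl e]
    apply Finset.sum_subset (Finset.powerset_mono.2 hP)
    intro T _ hT
    rw [if_neg (fun h => hT (Finset.mem_powerset.2 h)), zero_mul]
  · intro T
    beta_reduce
    split_ifs
    · exact h2 T
    · simp
  · intro T _ hT
    beta_reduce at hT
    by_cases h : T ⊆ P
    · rw [if_pos h] at hT
      exact h3 T (Finset.mem_powerset.2 h) hT
    · rw [if_neg h] at hT
      exact absurd rfl hT

/-- one more variable -/
private theorem cs_rep_step {P : Finset ℕ} {w : ℕ} (hw : w ∉ P) {Q Q' R : Finset ℕ → Prop}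
    {F F' : (ℕ → ℝ) → ℝ} (h : RepB P Q F) (h' : RepB P Q' F')
    (hQ : ∀ T, Q T → R T) (hQ' : ∀ T, T ⊆ P → Q' T → R (insert w T)) :
    RepB (insert w P) R (fun ρ => F ρ - ρ w * F' ρ) := by
  classical
  obtain ⟨c, h1, h2, h3⟩ := h
  obtain ⟨c', h1', h2', h3'⟩ := h'
  refine ⟨fun T => if w ∈ T then - c' (T.erase w) else c T, ?_, ?_, ?_⟩
  · intro ρ
    rw [Finset.sum_powerset_insert hw]
    have e1 : ∀ T ∈ P.powerset, (if w ∈ T then - c' (T.erase w) else c T) * ∏ p ∈ T, ρ p
        = c T * ∏ p ∈ T, ρ p := by
      intro T hT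
      rw [if_neg (fun h => hw (Finset.mem_powerset.1 hT h))]
    have e2 : ∀ T ∈ P.powerset, (if w ∈ insert w T then - c' ((insert w T).erase w)
        else c (insert w T)) * ∏ p ∈ insert w T, ρ p = - (ρ w * (c' T * ∏ p ∈ T, ρ p)) := by
      intro T hT
      have hwT : w ∉ T := fun h => hw (Finset.mem_powerset.1 hT h)
      rw [if_pos (Finset.mem_insert_self w T), Finset.erase_insert hwT, Finset.prod_insert hwT]
      ring
    rw [Finset.sum_congr rfl e1, Finset.sum_congr rfl e2, Finset.sum_neg_distrib,
      ← Finset.mul_sum, ← h1 ρ, ← h1' ρ]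
    ring
  · intro T
    beta_reduce
    split_ifs
    · rw [abs_neg]
      exact h2' _
    · exact h2 T
  · intro T hT hc
    rw [Finset.mem_powerset] at hT
    beta_reduce at hc
    by_cases h : w ∈ T
    · rw [if_pos h] at hc
      have hs : T.erase w ⊆ P := by
        intro p hp
        rw [Finset.mem_erase] at hp
        exact (Finset.mem_insert.1 (hT hp.2)).resolve_left hp.1
      have := hQ' _ hs (h3' _ (Finset.mem_powerset.2 hs) (fun h0 => hc (by rw [h0, neg_zero])))
      rwa [Finset.insert_erase h] at this
    · rw [if_neg h] at hc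
      have hs : T ⊆ P := by
        intro p hp
        exact (Finset.mem_insert.1 (hT hp)).resolve_left (fun h0 => h (h0 ▸ hp))
      exact hQ _ (h3 _ (Finset.mem_powerset.2 hs) hc)

/-- [CS rep] The sieve functions are combinations of products with coefficients of absolute value
at most one, supported on `∏ p ∈ T, p < D`. -/
theorem p_rep : S_rep := by
  intro a w
  induction w with
  | zero =>
    intro b D hD _
    refine ⟨fun _ => 1, ?_, ?_, ?_⟩
    · intro ρ
      have : Pr a 0 = ∅ := by
        unfold Pr
        simp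
      rw [this]
      simp [th]
    · intro T
      simp
    · intro T hT _
      have : Pr a 0 = ∅ := by
        unfold Pr
        simp
      rw [this, Finset.powerset_empty, Finset.mem_singleton] at hT
      rw [hT, Finset.prod_empty]
      exact hD
  | succ w ih =>
    intro b D hD hb
    by_cases h : w.Prime ∧ a ≤ w ∧ (b = true → (w : ℝ) ^ 3 < D)
    · have hth : (fun ρ => th a ρ (w + 1) b D)
          = fun ρ => th a ρ w b D - ρ w * th a ρ w (!b) (D / w) := by
        funext ρ
        simp only [th]
        rw [if_pos h]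
      have h2 : (2 : ℝ) ≤ w := by exact_mod_cast h.1.two_le
      have hw0 : (0 : ℝ) < w := by linarith
      have hDw : 1 < D / w ∧ ((!b) = false → (w : ℝ) ≤ D / w) := by
        cases b with
        | true =>
          have h3 := h.2.2 rfl
          constructor
          · rw [lt_div_iff₀ hw0]
            nlinarith [mul_self_nonneg ((w : ℝ) - 1)]
          · intro _
            rw [le_div_iff₀ hw0]
            nlinarith [mul_self_nonneg ((w : ℝ) - 1)]
        | false =>
          have h3 := hb rfl
          push_cast at h3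
          constructor
          · rw [lt_div_iff₀ hw0]
            linarith
          · intro h0
            simp at h0
      have hbw : b = false → (w : ℝ) ≤ D := by
        intro h0
        have h3 := hb h0
        push_cast at h3
        linarith
      rw [hth, cs_rep_Pr_succ ⟨h.1, h.2.1⟩]
      refine cs_rep_step (cs_rep_notMem a w) (ih b D hD hbw) (ih (!b) (D / w) hDw.1 hDw.2)
        (fun T hT => hT) ?_
      intro T hT hlt
      have hwT : w ∉ T := fun h0 => cs_rep_notMem a w (hT h0)
      rw [Finset.prod_insert hwT]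
      rw [lt_div_iff₀ hw0] at hlt
      linarith
    · have hth : (fun ρ => th a ρ (w + 1) b D) = fun ρ => th a ρ w b D := by
        funext ρ
        simp only [th]
        rw [if_neg h, sub_zero]
      rw [hth]
      refine cs_rep_ext (cs_rep_Pr_sub a w) (ih b D hD ?_)
      intro h0
      have h3 := hb h0
      push_cast at h3
      linarith

end Pool.Agent.CH.S
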