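import Pool.Agent.Lib.MP_d610d0_nt.CH.S.Stm

set_option autoImplicit false

namespace Pool.Agent.CH.S

open Finset

private theorem cs_stU1_mem (a w p : ℕ) : p ∈ Pr a w ↔ p < w ∧ p.Prime ∧ a ≤ p := by
  rw [Pr, mem_filter, mem_range]

private theorem cs_stU1_case1 (hexp : S_exp) (a m : ℕ) (D : ℝ) (h : D ≤ (a : ℝ) ^ 3) :
    th a gd m true D = 1 := by
  rw [hexp a gd m true D]
  have h0 : ∑ p ∈ Pr a m, (if (true = true → (p : ℝ) ^ 3 < D) then gd p * th a gd p (!true) (D / p)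
      else 0) = 0 := by
    apply sum_eq_zero
    intro p hp
    rw [cs_stU1_mem] at hp
    rw [if_neg]
    intro h1
    have h2 := h1 rfl
    have h3 : (a : ℝ) ≤ p := by exact_mod_cast hp.2.2
    have h4 : (a : ℝ) ^ 3 ≤ (p : ℝ) ^ 3 := pow_le_pow_left₀ (Nat.cast_nonneg a) h3 3
    linarith
  rw [h0, sub_zero]

private theorem cs_stU1_case2 (hexp : S_exp) (a m m' : ℕ) (D : ℝ) (hm : m' ≤ m)
    (h : ∀ p : ℕ, m' ≤ p → D ≤ (p : ℝ) ^ 3) :
    th a gd m true D = th a gd m' true D := by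
  rw [hexp a gd m true D, hexp a gd m' true D]
  congr 1
  symm
  apply sum_subset
  · intro p hp
    rw [cs_stU1_mem] at hp ⊢
    exact ⟨lt_of_lt_of_le hp.1 hm, hp.2⟩
  · intro p hp hp'
    rw [cs_stU1_mem] at hp hp'
    rw [if_neg]
    intro h1
    have h2 := h1 rfl
    have h3 : m' ≤ p := by
      by_contra hlt
      exact hp' ⟨by omega, hp.2⟩
    have := h p h3
    linarith

theorem p_stU1 (hexp : S_exp) (htel : S_tel) : S_stU1 := by
  intro u l U L K hSS S ε hSm a w D ha hMer haw hwD hD3 hyp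
  obtain ⟨hV, hVmul, -, -, -⟩ := htel a ha
  have ha3 : (3 : ℝ) ≤ a := by exact_mod_cast ha
  have hw3 : (3 : ℝ) ≤ w := le_trans ha3 haw
  have hlw : 0 < Real.log w := Real.log_pos (by linarith)
  have hlwD : Real.log w ≤ Real.log D := Real.log_le_log (by linarith) hwD
  have hlD : 0 < Real.log D := lt_of_lt_of_le hlw hlwD
  have hlD3 : Real.log D ≤ 3 * Real.log w := by
    have h1 : Real.log D ≤ Real.log (w ^ 3) := Real.log_le_log (by linarith) hD3.le
    rw [Real.log_pow] at h1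
    exact_mod_cast h1
  have hs1 : 1 ≤ Real.log D / Real.log w := by
    rw [le_div_iff₀ hlw]; linarith
  have hlD3' : Real.log D < 3 * Real.log w := by
    have h1 : Real.log D < Real.log (w ^ 3) := Real.log_lt_log (by linarith) hD3
    rw [Real.log_pow] at h1
    exact_mod_cast h1
  have hs3 : Real.log D / Real.log w < 3 := by
    rw [div_lt_iff₀ hlw]; linarith
  have hmid := hSS.mid _ hs1 hs3
  have hu3 := hSS.u_pos 3 (by norm_num)
  have hK3 := hSS.K3
  have hε0 := hSm.pos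
  have hε1 := hSm.le
  have hKpos : 0 < K := by nlinarith
  have hKs : K / (Real.log D / Real.log w) = K * Real.log w / Real.log D := by
    field_simp
  rw [hKs] at hmid
  have hVm := hV ⌈w⌉₊
  have ham : a ≤ ⌈w⌉₊ := by
    have h1 : (a : ℝ) ≤ (⌈w⌉₊ : ℝ) := le_trans haw (Nat.le_ceil w)
    exact_mod_cast h1
  unfold UpC
  rcases le_or_gt D ((a : ℝ) ^ 3) with hc | hc
  · rw [cs_stU1_case1 hexp a _ D hc]
    have h1 := hMer a le_rfl w haw
    have hla : Real.log D ≤ 3 * Real.log a := by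
      have h2 : Real.log D ≤ Real.log ((a : ℝ) ^ 3) := Real.log_le_log (by linarith) hc
      rw [Real.log_pow] at h2
      exact_mod_cast h2
    have hK : 3 * (1 + ε) ≤ K := by nlinarith
    have hla0 : 0 < Real.log a := Real.log_pos (by linarith)
    have h3 : (1 + ε) * Real.log D ≤ (1 + ε) * (V a ⌈w⌉₊ * K * Real.log w) := by
      calc (1 + ε) * Real.log D ≤ (1 + ε) * (3 * Real.log a) :=
            mul_le_mul_of_nonneg_left hla (by linarith)
        _ = 3 * (1 + ε) * Real.log a := by ring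
        _ ≤ K * Real.log a := mul_le_mul_of_nonneg_right hK hla0.le
        _ ≤ K * ((1 + ε) * V a ⌈w⌉₊ * Real.log w) := mul_le_mul_of_nonneg_left h1 hKpos.le
        _ = _ := by ring
    have h4 : Real.log D ≤ V a ⌈w⌉₊ * K * Real.log w := le_of_mul_le_mul_left h3 (by linarith)
    calc (1 : ℝ) ≤ V a ⌈w⌉₊ * K * Real.log w / Real.log D := by
          rw [le_div_iff₀ hlD]; linarith
      _ = V a ⌈w⌉₊ * (K * Real.log w / Real.log D) := by ring
      _ ≤ _ := mul_le_mul_of_nonneg_left hmid hVm.1.le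
  · have hD0 : 0 < D := by linarith
    have hw'0 : 0 < D ^ (1 / 3 : ℝ) := Real.rpow_pos_of_pos hD0 _
    have hw'3 : (D ^ (1 / 3 : ℝ)) ^ 3 = D := by
      rw [← Real.rpow_natCast, ← Real.rpow_mul hD0.le]
      norm_num
    generalize D ^ (1 / 3 : ℝ) = w' at hw'0 hw'3
    have haw' : (a : ℝ) ≤ w' := by
      by_contra hlt
      push Not at hlt
      have : w' ^ 3 < (a : ℝ) ^ 3 := pow_lt_pow_left₀ hlt hw'0.le (by norm_num)
      linarith
    have hw'w : w' ≤ w := by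
      by_contra hlt
      push Not at hlt
      have : w ^ 3 < w' ^ 3 := pow_lt_pow_left₀ hlt (by linarith) (by norm_num)
      linarith
    have hmm : ⌈w'⌉₊ ≤ ⌈w⌉₊ := Nat.ceil_mono hw'w
    have ham' : a ≤ ⌈w'⌉₊ := by
      have h1 : (a : ℝ) ≤ (⌈w'⌉₊ : ℝ) := le_trans haw' (Nat.le_ceil w')
      exact_mod_cast h1
    have hth : th a gd ⌈w⌉₊ true D = th a gd ⌈w'⌉₊ true D := by
      apply cs_stU1_case2 hexp a _ _ D hmm
      intro p hp
      rw [← hw'3]
      apply pow_le_pow_left₀ hw'0.le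
      exact Nat.ceil_le.1 hp
    have hup := hyp w' haw' hw'w hw'3
    unfold UpC at hup
    have hw'3' : (3 : ℝ) ≤ w' := le_trans ha3 haw'
    have hlw' : 0 < Real.log w' := Real.log_pos (by linarith)
    have hlDw' : Real.log D = 3 * Real.log w' := by
      rw [← hw'3, Real.log_pow]
      norm_num
    have h3 : Real.log D / Real.log w' = 3 := by
      rw [hlDw']; field_simp
    rw [h3] at hup
    have hVm' := hV ⌈w'⌉₊
    have hcomp : V a ⌈w'⌉₊ * Real.log w' ≤ (1 + ε) * V a ⌈w⌉₊ * Real.log w := by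
      rcases le_or_gt ((⌈w'⌉₊ : ℝ)) w with hc1 | hc1
      · have h4 := hMer ⌈w'⌉₊ ham' w hc1
        have h5 : Real.log w' ≤ Real.log (⌈w'⌉₊ : ℝ) := Real.log_le_log hw'0 (Nat.le_ceil w')
        rw [hVmul ⌈w'⌉₊ ⌈w⌉₊ ham' hmm]
        calc V a ⌈w'⌉₊ * Real.log w' ≤ V a ⌈w'⌉₊ * ((1 + ε) * V ⌈w'⌉₊ ⌈w⌉₊ * Real.log w) :=
              mul_le_mul_of_nonneg_left (le_trans h5 h4) hVm'.1.le
          _ = _ := by ring
      · have h4 : ⌈w⌉₊ ≤ ⌈w'⌉₊ := Nat.ceil_le.2 hc1.le
        have h5 : ⌈w'⌉₊ = ⌈w⌉₊ := le_antisymm hmm h4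
        rw [h5]
        have h6 : Real.log w' ≤ Real.log w := Real.log_le_log hw'0 hw'w
        calc V a ⌈w⌉₊ * Real.log w' ≤ V a ⌈w⌉₊ * Real.log w :=
              mul_le_mul_of_nonneg_left h6 hVm.1.le
          _ ≤ (1 + ε) * V a ⌈w⌉₊ * Real.log w := by
              apply mul_le_mul_of_nonneg_right _ hlw.le
              nlinarith [hVm.1]
    rw [hth]
    have h7 : V a ⌈w'⌉₊ * (1 + u 3) * Real.log D ≤
        V a ⌈w⌉₊ * K * Real.log w := by
      have h8 : 3 * (1 + ε) * (1 + u 3) ≤ K := by nlinarith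
      calc V a ⌈w'⌉₊ * (1 + u 3) * Real.log D =
            3 * (1 + u 3) * (V a ⌈w'⌉₊ * Real.log w') := by rw [hlDw']; ring
        _ ≤ 3 * (1 + u 3) * ((1 + ε) * V a ⌈w⌉₊ * Real.log w) :=
              mul_le_mul_of_nonneg_left hcomp (by linarith)
        _ = (3 * (1 + ε) * (1 + u 3)) * (V a ⌈w⌉₊ * Real.log w) := by ring
        _ ≤ K * (V a ⌈w⌉₊ * Real.log w) :=
              mul_le_mul_of_nonneg_right h8 (mul_nonneg hVm.1.le hlw.le)
        _ = _ := by ring
    calc th a gd ⌈w'⌉₊ true D ≤ V a ⌈w'⌉₊ * (1 + u 3) := hup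
      _ ≤ V a ⌈w⌉₊ * K * Real.log w / Real.log D := by
          rw [le_div_iff₀ hlD]; exact h7
      _ = V a ⌈w⌉₊ * (K * Real.log w / Real.log D) := by ring
      _ ≤ _ := mul_le_mul_of_nonneg_left hmid hVm.1.le

end Pool.Agent.CH.S
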