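import Pool.Agent.Lib.MP_d610d0_nt.CH.S.Stm

set_option autoImplicit false

/-!
Section S of the Chen type theorem: the upper bound for `s ≥ 3` from the lower bounds for smaller
primes.
-/

namespace Pool.Agent.CH.S

open Finset

private theorem cs_stU3_mem {a : ℕ} {w : ℝ} {p : ℕ} (hp : p ∈ Pr a ⌈w⌉₊) :
    p.Prime ∧ a ≤ p ∧ (p : ℝ) < w := by
  unfold Pr at hp
  rw [Finset.mem_filter, Finset.mem_range] at hp
  exact ⟨hp.2.1, hp.2.2, Nat.lt_ceil.1 hp.1⟩

theorem p_stU3 (hps : S_ps) (hexp : S_exp) (htel : S_tel) : S_stU3 := by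
  intro u l U L K hSS S ε hSm a w D ha hMer haw hwD hlogD hyp
  have hw3 : (3 : ℝ) ≤ w := le_trans (by exact_mod_cast ha) haw
  have ha3 : (3 : ℝ) ≤ (a : ℝ) := by exact_mod_cast ha
  have hlogw : 0 < Real.log w := Real.log_pos (by linarith)
  have hloga : 0 < Real.log a := Real.log_pos (by linarith)
  have hwleD : w ≤ D := by
    refine le_trans ?_ hwD
    nlinarith [mul_nonneg (by linarith : (0 : ℝ) ≤ w) (by linarith : (0 : ℝ) ≤ w)]
  have hDpos : 0 < D := by linarith
  have hlogwa : Real.log a ≤ Real.log w := Real.log_le_log (by linarith) haw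
  have hlog3 : 3 * Real.log w ≤ Real.log D := by
    have h := Real.log_le_log (by positivity) hwD
    rw [Real.log_pow] at h
    exact_mod_cast h
  have hSpos : 0 < S := by
    by_contra hcon
    have h1 : S * Real.log a ≤ 0 := mul_nonpos_of_nonpos_of_nonneg (not_lt.1 hcon) hloga.le
    linarith
  have hs3 : 3 ≤ Real.log D / Real.log w := by
    rw [le_div_iff₀ hlogw]; exact hlog3
  have hsS : Real.log D / Real.log w ≤ S := by
    rw [div_le_iff₀ hlogw]
    exact le_trans hlogD (mul_le_mul_of_nonneg_left hlogwa hSpos.le)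
  have hsum := hps a w D ε l L ha haw hwleD hSm.pos.le hMer
    (fun x y hx hxy => hSS.l_anti x y (by linarith) hxy)
    (fun x hx => (hSS.l_pos x (by linarith)).le)
    (fun x y hx hxy => hSS.L_int x y (by linarith) hxy)
    (fun x hx => hSS.L_nn x (by linarith))
  obtain ⟨hV, _, _, hT, _⟩ := htel a ha
  have he2 := hSm.e2 _ hs3 hsS
  unfold UpC
  rw [hexp a gd ⌈w⌉₊ true D]
  have hterm : ∑ p ∈ Pr a ⌈w⌉₊, (gd p * V a p - gd p * V a p * l (Real.log D / Real.log p - 1)) ≤
      ∑ p ∈ Pr a ⌈w⌉₊,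
        (if (true = true → (p : ℝ) ^ 3 < D) then gd p * th a gd p (!true) (D / p) else 0) := by
    apply Finset.sum_le_sum
    intro p hp
    obtain ⟨hpp, hap, hpw⟩ := cs_stU3_mem hp
    have hp3 : (3 : ℝ) ≤ (p : ℝ) := le_trans ha3 (by exact_mod_cast hap)
    have hcond : true = true → (p : ℝ) ^ 3 < D := by
      intro _
      refine lt_of_lt_of_le ?_ hwD
      exact pow_lt_pow_left₀ hpw (by linarith) (by norm_num)
    rw [if_pos hcond]
    have hlo := hyp p hpp hap hpw
    unfold LoC at hlo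
    rw [Nat.ceil_natCast] at hlo
    have hlogp : 0 < Real.log (p : ℝ) := Real.log_pos (by linarith)
    have hdiv : Real.log (D / p) / Real.log (p : ℝ) = Real.log D / Real.log (p : ℝ) - 1 := by
      rw [Real.log_div (by linarith) (by linarith)]
      field_simp
    rw [hdiv] at hlo
    have hg : 0 ≤ gd p := by
      unfold gd
      apply div_nonneg zero_le_one
      linarith
    have := mul_le_mul_of_nonneg_left hlo hg
    calc gd p * V a p - gd p * V a p * l (Real.log D / Real.log p - 1)
        = gd p * (V a p * (1 - l (Real.log D / Real.log p - 1))) := by ring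
      _ ≤ gd p * th a gd p false (D / p) := this
      _ = gd p * th a gd p (!true) (D / p) := rfl
  rw [Finset.sum_sub_distrib, hT] at hterm
  have hVm := (hV ⌈w⌉₊).1
  have hfin : V a ⌈w⌉₊ * ((1 + ε) * (1 / (Real.log D / Real.log w)) *
      L (Real.log D / Real.log w - 1) + ε * l (Real.log D / Real.log w - 1)) ≤
      V a ⌈w⌉₊ * u (Real.log D / Real.log w) := mul_le_mul_of_nonneg_left he2 hVm.le
  have hr : V a ⌈w⌉₊ * (1 + u (Real.log D / Real.log w)) =
      V a ⌈w⌉₊ + V a ⌈w⌉₊ * u (Real.log D / Real.log w) := by ring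
  rw [hr]
  linarith

end Pool.Agent.CH.S
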