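import Pool.Agent.Lib.MP_d610d0_nt.CH.S.Stm

/-!
Section S of the Chen type theorem: [CS tel], elementary facts on `V`.
-/

set_option autoImplicit false

namespace Pool.Agent.CH.S

open Finset

private theorem cs_tel_fac (p : ℕ) (hp : 3 ≤ p) : 0 < 1 - gd p ∧ 1 - gd p ≤ 1 := by
  have h : (3 : ℝ) ≤ (p : ℝ) := by exact_mod_cast hp
  have h1 : (0 : ℝ) < (p : ℝ) - 1 := by linarith
  have h2 : 1 / ((p : ℝ) - 1) < 1 := by
    rw [div_lt_one h1]; linarith
  have h3 : 0 < 1 / ((p : ℝ) - 1) := by positivity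
  unfold gd
  exact ⟨by linarith, by linarith⟩

private theorem cs_tel_mem (a w p : ℕ) : p ∈ Pr a w ↔ p < w ∧ p.Prime ∧ a ≤ p := by
  simp [Pr]

private theorem cs_tel_succ (a n : ℕ) :
    V a (n + 1) = V a n - (if n.Prime ∧ a ≤ n then gd n * V a n else 0) := by
  unfold V Pr
  rw [Finset.range_add_one, Finset.filter_insert]
  by_cases h : n.Prime ∧ a ≤ n
  · rw [if_pos h, if_pos h, Finset.prod_insert (by simp)]
    ring
  · rw [if_neg h, if_neg h]
    ring

private theorem cs_tel_sum (a : ℕ) (w : ℕ) : ∑ p ∈ Pr a w, gd p * V a p = 1 - V a w := by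
  induction w with
  | zero => simp [Pr, V]
  | succ n ih =>
    rw [cs_tel_succ]
    have h0 : Pr a (n + 1) = if n.Prime ∧ a ≤ n then insert n (Pr a n) else Pr a n := by
      unfold Pr
      rw [Finset.range_add_one, Finset.filter_insert]
    rw [h0]
    by_cases h : n.Prime ∧ a ≤ n
    · rw [if_pos h, if_pos h, Finset.sum_insert (by simp [Pr]), ih]
      ring
    · rw [if_neg h, if_neg h, ih]
      ring

theorem p_tel : S_tel := by
  intro a ha
  refine ⟨fun w => ⟨?_, ?_⟩, ?_, fun n => cs_tel_succ a n, fun w => cs_tel_sum a w, ?_⟩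
  · unfold V
    refine Finset.prod_pos fun p hp => ?_
    rw [cs_tel_mem] at hp
    exact (cs_tel_fac p (le_trans ha hp.2.2)).1
  · unfold V
    refine Finset.prod_le_one (fun p hp => ?_) (fun p hp => ?_)
    · rw [cs_tel_mem] at hp
      exact (cs_tel_fac p (le_trans ha hp.2.2)).1.le
    · rw [cs_tel_mem] at hp
      exact (cs_tel_fac p (le_trans ha hp.2.2)).2
  · intro n m hn hm
    unfold V
    rw [← Finset.prod_union]
    · refine Finset.prod_congr ?_ (fun _ _ => rfl)
      ext p
      simp only [cs_tel_mem, Finset.mem_union]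
      constructor
      · rintro ⟨h1, h2, h3⟩
        by_cases h : p < n
        · exact Or.inl ⟨h, h2, h3⟩
        · exact Or.inr ⟨h1, h2, by omega⟩
      · rintro (⟨h1, h2, h3⟩ | ⟨h1, h2, h3⟩)
        · exact ⟨by omega, h2, h3⟩
        · exact ⟨h1, h2, by omega⟩
    · rw [Finset.disjoint_left]
      intro p hp hq
      rw [cs_tel_mem] at hp hq
      omega
  · intro X z hX hz
    unfold V VV
    rw [← Finset.prod_union]
    · refine Finset.prod_congr ?_ (fun _ _ => rfl)
      have hc : X < ⌈z⌉₊ := by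
        rw [Nat.lt_ceil]
        linarith
      ext p
      simp only [cs_tel_mem, Finset.mem_union, OP, Finset.mem_filter, Finset.mem_range]
      constructor
      · rintro ⟨h1, h2, h3⟩
        by_cases h : p < X + 1
        · exact Or.inl ⟨h, h2, h3⟩
        · exact Or.inr ⟨h1, h2, by omega⟩
      · rintro (⟨h1, h2, h3⟩ | ⟨h1, h2, h3⟩)
        · exact ⟨by omega, h2, h3⟩
        · exact ⟨h1, h2, by omega⟩
    · rw [Finset.disjoint_left]
      intro p hp hq
      rw [cs_tel_mem] at hq
      simp only [OP, Finset.mem_filter, Finset.mem_range] at hp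
      omega

end Pool.Agent.CH.S
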