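import Pool.Agent.Lib.MP_d610d0_nt.CH.S.Stm

set_option autoImplicit false

namespace Pool.Agent.CH.S

open Finset

theorem p_stL (hps : S_ps) (hexp : S_exp) (htel : S_tel) : S_stL := by
  intro u l U L K hSS S ε hSm a w D ha hMer haw hwD hDS hUp
  have ha3 : (3 : ℝ) ≤ a := by exact_mod_cast ha
  have hw3 : (3 : ℝ) ≤ w := le_trans ha3 haw
  have hw0 : 0 < w := by linarith
  have hlw : 0 < Real.log w := Real.log_pos (by linarith)
  have hla : 0 < Real.log a := Real.log_pos (by linarith)
  have hwD1 : w ≤ D := by nlinarith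
  have hD0 : 0 < D := by linarith
  have hlogD : 2 * Real.log w ≤ Real.log D := by
    have h := Real.log_le_log (by positivity : (0 : ℝ) < w ^ 2) hwD
    rw [Real.log_pow] at h
    exact_mod_cast h
  have hs2 : 2 ≤ Real.log D / Real.log w := by
    rw [le_div_iff₀ hlw]; exact hlogD
  have hS0 : 0 < S := by
    by_contra h
    push Not at h
    nlinarith
  have hsS : Real.log D / Real.log w ≤ S := by
    rw [div_le_iff₀ hlw]
    refine le_trans hDS ?_
    exact mul_le_mul_of_nonneg_left (Real.log_le_log (by linarith) haw) hS0.le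
  obtain ⟨hV, -, -, hsum, -⟩ := htel a ha
  unfold LoC
  set s := Real.log D / Real.log w with hs
  have hps1 := hps a w D ε u U ha haw hwD1 hSm.pos.le hMer
    (fun x y hx hxy => hSS.u_anti x y (by linarith) hxy)
    (fun x hx => (hSS.u_pos x (by linarith)).le)
    (fun x y hx hxy => hSS.U_int x y (by linarith) hxy)
    (fun x hx => hSS.U_nn x (by linarith))
  rw [← hs] at hps1
  have he1 := hSm.e1 s hs2 hsS
  have hps2 : ∑ p ∈ Pr a ⌈w⌉₊, gd p * V a p * u (Real.log D / Real.log p - 1)
      ≤ V a ⌈w⌉₊ * l s :=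
    le_trans hps1 (mul_le_mul_of_nonneg_left he1 (hV _).1.le)
  rw [hexp a gd ⌈w⌉₊ false D]
  have hle : ∑ p ∈ Pr a ⌈w⌉₊, (if (false = true → (p : ℝ) ^ 3 < D) then
      gd p * th a gd p (!false) (D / p) else 0) ≤
      ∑ p ∈ Pr a ⌈w⌉₊, (gd p * V a p + gd p * V a p * u (Real.log D / Real.log p - 1)) := by
    apply Finset.sum_le_sum
    intro p hp
    rw [if_pos (fun h => absurd h (by decide))]
    unfold Pr at hp
    rw [mem_filter, mem_range] at hp
    obtain ⟨hpw, hpp, hap⟩ := hp
    have hpw' : (p : ℝ) < w := Nat.lt_ceil.1 hpw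
    have hp3 : (3 : ℝ) ≤ p := by exact_mod_cast le_trans ha hap
    have hg : 0 ≤ gd p := by
      unfold gd
      apply div_nonneg zero_le_one
      linarith
    have h1 := hUp p hpp hap hpw'
    unfold UpC at h1
    rw [Nat.ceil_natCast, Real.log_div hD0.ne' (by linarith), sub_div,
      div_self (Real.log_pos (by linarith)).ne'] at h1
    calc gd p * th a gd p (!false) (D / p)
        ≤ gd p * (V a p * (1 + u (Real.log D / Real.log p - 1))) :=
          mul_le_mul_of_nonneg_left h1 hg
      _ = _ := by ring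
  rw [sum_add_distrib, hsum] at hle
  refine le_trans ?_ (sub_le_sub_left hle 1)
  have : V a ⌈w⌉₊ * (1 - l s) = V a ⌈w⌉₊ - V a ⌈w⌉₊ * l s := by ring
  linarith

end Pool.Agent.CH.S
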